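import Mathlib

/-! Coordinates of integral vectors with respect to integral vectors. -/

set_option autoImplicit false

namespace Pool.Agent.K4H87.BS

open Finset Matrix

/-- real vectors with integral coordinates of absolute value at most `Δ` -/
def Sm (n Δ : ℕ) : Set (Fin n → ℝ) := {w | ∀ q, ∃ z : ℤ, w q = z ∧ |z| ≤ Δ}

theorem det_bound {k Δ : ℕ} (M : Matrix (Fin k) (Fin k) ℤ) (h : ∀ i j, |M i j| ≤ Δ) :
    |M.det| ≤ (k.factorial * Δ ^ k : ℕ) := by
  have := Matrix.det_le (abv := (AbsoluteValue.abs : AbsoluteValue ℤ ℤ)) (x := (Δ : ℤ)) (A := M)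
    (fun i j => h i j)
  rw [Fintype.card_fin, nsmul_eq_mul] at this
  push_cast
  exact this

theorem coef_bound {n Δ : ℕ} (hΔ : 1 ≤ Δ) (S : Set (Fin n → ℝ)) (hS : S ⊆ Sm n Δ)
    {w : Fin n → ℝ} (hw : w ∈ Sm n Δ) (hspan : w ∈ Submodule.span ℝ S)
    (c : (Fin n → ℝ) →ₗ[ℝ] ℝ) {X : ℝ} (hX : 0 ≤ X) (hc : ∀ s ∈ S, |c s| ≤ X) :
    |c w| ≤ (n * (n.factorial * Δ ^ n) : ℕ) * X := by
  classical
  obtain ⟨k, hkn, f, hf1, hf2, hf3⟩ : ∃ k ≤ n, ∃ f : Fin k → (Fin n → ℝ), (∀ i, f i ∈ S) ∧
      Submodule.span ℝ (Set.range f) = Submodule.span ℝ S ∧ LinearIndependent ℝ f := by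
    refine ⟨_, ?_, Submodule.exists_fun_fin_finrank_span_eq ℝ S⟩
    have := Submodule.finrank_le (Submodule.span ℝ S)
    simpa using this
  -- coordinates
  rw [← hf2] at hspan
  obtain ⟨α, hα⟩ := (Submodule.mem_span_range_iff_exists_fun ℝ).1 hspan
  -- integral entries
  have hz : ∀ i q, ∃ z : ℤ, f i q = z ∧ |z| ≤ Δ := fun i q => hS (hf1 i) q
  choose Z hZ1 hZ2 using hz
  choose W hW1 hW2 using hw
  -- choice of rows
  have hrow : ∃ r : Fin k → Fin n, (Matrix.of fun p i => Z i (r p)).det ≠ 0 := by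
    set M : Matrix (Fin n) (Fin k) ℝ := Matrix.of fun q i => f i q with hM
    have hrank : M.rank = k := by
      have h1 : LinearIndependent ℝ M.col := by
        have : M.col = f := by
          funext i q
          rfl
        rw [this]
        exact hf3
      have h2 := Matrix.rank_transpose M
      have h3 := LinearIndependent.rank_matrix (M := Mᵀ) (by
        have : (Mᵀ).row = f := by
          funext i q
          rfl
        rw [this]
        exact hf3)
      rw [h2, Fintype.card_fin] at h3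
      exact h3
    rw [Matrix.rank_eq_finrank_span_row] at hrank
    obtain ⟨g, hg1, hg2, hg3⟩ := Submodule.exists_fun_fin_finrank_span_eq ℝ (Set.range M.row)
    have hrank' : Module.finrank ℝ (Submodule.span ℝ (Set.range M.row)) = k := hrank
    let e : Fin k ≃ Fin (Module.finrank ℝ (Submodule.span ℝ (Set.range M.row))) :=
      finCongr hrank'.symm
    have hr : ∀ p : Fin k, ∃ q, M.row q = g (e p) := fun p => hg1 (e p)
    choose r hr using hr
    refine ⟨r, fun h0 => ?_⟩
    have h1 : ((Matrix.of fun p i => Z i (r p)).map (Int.castRingHom ℝ)).det = 0 := by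
      rw [← RingHom.mapMatrix_apply, ← RingHom.map_det, h0, map_zero]
    have h2 : LinearIndependent ℝ ((Matrix.of fun p i => Z i (r p)).map (Int.castRingHom ℝ)).row := by
      have : ((Matrix.of fun p i => Z i (r p)).map (Int.castRingHom ℝ)).row = fun p => g (e p) := by
        funext p
        rw [← hr p]
        funext i
        simp [Matrix.row, hM, hZ1]
      rw [this]
      exact hg3.comp e e.injective
    have h3 := (Matrix.linearIndependent_rows_iff_isUnit (A :=
      (Matrix.of fun p i => Z i (r p)).map (Int.castRingHom ℝ))).1 h2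
    rw [Matrix.isUnit_iff_isUnit_det, h1] at h3
    exact not_isUnit_zero h3
  obtain ⟨r, hr⟩ := hrow
  set Q : Matrix (Fin k) (Fin k) ℤ := Matrix.of fun p i => Z i (r p) with hQ
  have hcram : ∀ i, (Q.det : ℝ) * α i = ((Matrix.cramer Q (fun p => W (r p))) i : ℝ) := by
    have h1 := Matrix.mulVec_cramer Q (fun p => W (r p))
    have h2 : (Q.map (Int.castRingHom ℝ)) *ᵥ (fun i => ((Matrix.cramer Q (fun p => W (r p))) i : ℝ)) =
        (Q.map (Int.castRingHom ℝ)) *ᵥ (fun i => (Q.det : ℝ) * α i) := by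
      funext p
      have h3 := congrFun h1 p
      simp only [Matrix.mulVec, dotProduct, Pi.smul_apply, smul_eq_mul] at h3
      simp only [Matrix.mulVec, dotProduct, Matrix.map_apply, eq_intCast]
      have h4 : ∑ i, (Q p i : ℝ) * ((Matrix.cramer Q (fun p => W (r p))) i : ℝ) =
          (Q.det : ℝ) * (W (r p) : ℝ) := by exact_mod_cast h3
      rw [h4, ← hW1, ← hα]
      simp only [Finset.sum_apply, Pi.smul_apply, smul_eq_mul, hZ1, mul_sum]
      refine sum_congr rfl fun i _ => ?_
      simp only [hQ, Matrix.of_apply]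
      ring
    have hdet : (Q.map (Int.castRingHom ℝ)).det ≠ 0 := by
      rw [← RingHom.mapMatrix_apply, ← RingHom.map_det]
      simpa using hr
    have hinj := Matrix.mulVec_injective_iff_isUnit.2 ((Matrix.isUnit_iff_isUnit_det _).2
      (isUnit_iff_ne_zero.2 hdet))
    have h5 := hinj h2
    intro i
    exact (congrFun h5 i).symm
  have hbound : ∀ i, |α i| ≤ (n.factorial * Δ ^ n : ℕ) := by
    intro i
    have h1 : |(Q.det : ℝ)| ≥ 1 := by
      have : (1 : ℤ) ≤ |Q.det| := Int.one_le_abs hr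
      exact_mod_cast this
    have h2 : |(Matrix.cramer Q (fun p => W (r p))) i| ≤ (k.factorial * Δ ^ k : ℕ) := by
      rw [Matrix.cramer_apply]
      apply det_bound
      intro p j
      by_cases hj : j = i
      · subst hj
        simp [hW2]
      · rw [Matrix.updateCol_ne hj]
        exact hZ2 _ _
    have h3 : (k.factorial * Δ ^ k : ℕ) ≤ (n.factorial * Δ ^ n : ℕ) :=
      Nat.mul_le_mul (Nat.factorial_le hkn) (Nat.pow_le_pow_right hΔ hkn)
    have h4 : |(Q.det : ℝ)| * |α i| ≤ (k.factorial * Δ ^ k : ℕ) := by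
      rw [← abs_mul, hcram]
      exact_mod_cast h2
    have h5 : |α i| ≤ |(Q.det : ℝ)| * |α i| := le_mul_of_one_le_left (abs_nonneg _) h1
    have h6 : ((k.factorial * Δ ^ k : ℕ) : ℝ) ≤ (n.factorial * Δ ^ n : ℕ) := by exact_mod_cast h3
    linarith
  rw [← hα, map_sum]
  calc |∑ i, c (α i • f i)| ≤ ∑ i, |c (α i • f i)| := abs_sum_le_sum_abs _ _
    _ ≤ ∑ _i : Fin k, ((n.factorial * Δ ^ n : ℕ) : ℝ) * X := by
        refine sum_le_sum fun i _ => ?_
        rw [map_smul, smul_eq_mul, abs_mul]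
        exact mul_le_mul (hbound i) (hc _ (hf1 i)) (abs_nonneg _) (by positivity)
    _ = k * (((n.factorial * Δ ^ n : ℕ) : ℝ) * X) := by
        rw [sum_const, card_univ, Fintype.card_fin, nsmul_eq_mul]
    _ ≤ n * (((n.factorial * Δ ^ n : ℕ) : ℝ) * X) := by
        have : (k : ℝ) ≤ n := by exact_mod_cast hkn
        gcongr
    _ = _ := by push_cast; ring

end Pool.Agent.K4H87.BS
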