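import Pool.Agent.K4H87.BS.Event

/-! Counting the changes of the optimal vertex. -/

set_option autoImplicit false

namespace Pool.Agent.K4H87.BS

open MeasureTheory Finset Pool.Agent.K4H92.LP

/-- the ends of the cells -/
noncomputable def cell (X : ℝ) (M i : ℕ) : ℝ :=
  if i ≤ M then (i : ℝ) / M / X else (1 + 1 / (M : ℝ)) ^ (i - M) / X

section cells

variable {X : ℝ} {M : ℕ}

theorem cell_zero : cell X M 0 = 0 := by simp [cell]

theorem cell_lo {i : ℕ} (h : i ≤ M) : cell X M i = (i : ℝ) / M / X := by rw [cell, if_pos h]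

theorem cell_hi (hM : 0 < M) {i : ℕ} (h : M ≤ i) :
    cell X M i = (1 + 1 / (M : ℝ)) ^ (i - M) / X := by
  rcases h.eq_or_lt with rfl | h
  · rw [cell_lo le_rfl, Nat.sub_self, pow_zero, div_self (by positivity)]
  · rw [cell, if_neg (by omega)]

theorem cell_step_lo (hM : 0 < M) {i : ℕ} (h : i < M) :
    cell X M (i + 1) - cell X M i = 1 / M / X := by
  rw [cell_lo (by omega), cell_lo h.le]
  push_cast
  ring

theorem cell_step_hi (hM : 0 < M) {i : ℕ} (h : M ≤ i) :
    cell X M (i + 1) - cell X M i = cell X M i / M := by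
  rw [cell_hi hM (by omega), cell_hi hM h, show i + 1 - M = (i - M) + 1 by omega, pow_succ]
  ring

theorem cell_nonneg (hX : 0 < X) (i : ℕ) : 0 ≤ cell X M i := by
  unfold cell
  split_ifs <;> positivity

theorem cell_pos_hi (hX : 0 < X) (hM : 0 < M) {i : ℕ} (h : M ≤ i) : 0 < cell X M i := by
  rw [cell_hi hM h]
  positivity

theorem cell_last (hX : 0 < X) (hM : 0 < M) (ℓ : ℕ) : 2 ^ ℓ / X ≤ cell X M (M + M * ℓ) := by
  rw [cell_hi hM (by omega), Nat.add_sub_cancel_left, pow_mul]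
  gcongr
  have h := one_add_mul_le_pow (a := 1 / (M : ℝ)) (by
    have : (0 : ℝ) ≤ 1 / M := by positivity
    linarith) M
  have h2 : (M : ℝ) * (1 / M) = 1 := by field_simp
  linarith

/-- the cell containing a given point -/
theorem exists_cell (hX : 0 < X) (hM : 0 < M) {ℓ : ℕ} {r : ℝ} (hr : 0 < r)
    (hr' : r ≤ 2 ^ ℓ / X) : ∃ i < M + M * ℓ, cell X M i < r ∧ r ≤ cell X M (i + 1) ∧
      r - cell X M i ≤ (1 / M) * (1 / X + r) := by
  classical
  have hex : ∃ i, r ≤ cell X M i := ⟨_, hr'.trans (cell_last hX hM ℓ)⟩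
  set j := Nat.find hex with hj
  have h1 : r ≤ cell X M j := Nat.find_spec hex
  have h2 : j ≤ M + M * ℓ := Nat.find_min' hex (hr'.trans (cell_last hX hM ℓ))
  have h3 : j ≠ 0 := by
    intro h
    rw [h, cell_zero] at h1
    linarith
  obtain ⟨i, hi⟩ : ∃ i, j = i + 1 := ⟨j - 1, by omega⟩
  have h4 : cell X M i < r := not_le.1 (Nat.find_min hex (by omega))
  rw [hi] at h1 h2
  refine ⟨i, by omega, h4, h1, ?_⟩
  have h0 := cell_nonneg (M := M) hX i
  have hMr : (0 : ℝ) < M := by exact_mod_cast hM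
  rcases lt_or_ge i M with h | h
  · have := cell_step_lo (X := X) hM h
    have e : 1 / (M : ℝ) * (1 / X + r) = 1 / M / X + r / M := by ring
    have : 0 < r / M := by positivity
    linarith
  · have := cell_step_hi (X := X) hM h
    have e : 1 / (M : ℝ) * (1 / X + r) = 1 / M / X + r / M := by ring
    have e1 : 0 < 1 / (M : ℝ) / X := by positivity
    have e2 : cell X M i / M ≤ r / M := by gcongr
    linarith

end cells

variable {n : ℕ} {E : Type*} [AddCommGroup E] [Module ℝ E] {I : Type*} [Fintype I]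

/-- the data: norms and levels of the edge directions -/
structure Dat (a : I → E →ₗ[ℝ] ℝ) (c : E →ₗ[ℝ] ℝ) (B : Fin n → I) (κ R : ℝ)
    (nrm : E → ℝ) (lvl : E → ℕ) : Prop where
  hn : 0 < n
  hκ : 0 < κ
  hR : 0 < R
  hρ : ∀ j : I, ∃ ρ : Fin n → ℝ, (∀ i, |ρ i| ≤ κ) ∧ ∀ e, a j e = ∑ i, ρ i * a (B i) e
  hJ : ∀ T : Finset I, Spans a T → ∃ J ⊆ T, J.card ≤ n ∧ Spans a J
  nrm_pos : ∀ T e, Spans a T → Dir a T e → 0 < nrm e
  nrm_le : ∀ T e, Spans a T → Dir a T e → ∀ i, |a i e| ≤ κ * nrm e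
  nrm_ge : ∀ T e, Spans a T → Dir a T e → ∀ j, a j e ≠ 0 → nrm e ≤ |a j e|
  lvl_lt : ∀ T e, Spans a T → Dir a T e → 0 < c e → lvl e < n
  lvl_le : ∀ T T' e e', Spans a T → Dir a T e → Spans a T' → Dir a T' e' → 0 < c e → 0 < c e' →
    lvl e = lvl e' → c e' * nrm e ≤ R * (c e * nrm e')

variable {a : I → E →ₗ[ℝ] ℝ} {β : I → ℝ} {c : E →ₗ[ℝ] ℝ} {B : Fin n → I} {κ R : ℝ}
  {nrm : E → ℝ} {lvl : E → ℕ}

/-- improving directions of level `k` -/
def DD (a : I → E →ₗ[ℝ] ℝ) (c : E →ₗ[ℝ] ℝ) (lvl : E → ℕ) (k : ℕ) : Set E :=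
  {e | ∃ T, Spans a T ∧ Dir a T e ∧ 0 < c e ∧ lvl e = k}

theorem DD_finite (k : ℕ) : (DD a c lvl k).Finite := by
  refine Set.Finite.subset (Set.finite_iUnion fun T : Finset I => dir_finite a T) ?_
  rintro e ⟨T, _, h, _⟩
  exact Set.mem_iUnion.2 ⟨T, h⟩

namespace Dat

variable (H : Dat a c B κ R nrm lvl)
include H

theorem exists_X : ∃ X : ℕ → ℝ, (∀ k, 0 < X k) ∧ ∀ k, ∀ e ∈ DD a c lvl k,
    c e ≤ X k * nrm e ∧ X k * nrm e ≤ R * c e := by
  have h : ∀ k, ∃ x : ℝ, 0 < x ∧ ∀ e ∈ DD a c lvl k, c e ≤ x * nrm e ∧ x * nrm e ≤ R * c e := by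
    intro k
    by_cases hne : (DD a c lvl k).Nonempty
    · obtain ⟨e0, he0, hmax⟩ := Set.exists_max_image _ (fun e => c e / nrm e) (DD_finite k) hne
      obtain ⟨T0, hT0, hd0, hc0, hl0⟩ := he0
      have hp0 := H.nrm_pos T0 e0 hT0 hd0
      refine ⟨c e0 / nrm e0, by positivity, ?_⟩
      intro e he
      have h1 := hmax e he
      obtain ⟨T, hT, hd, hc, hl⟩ := he
      have hp := H.nrm_pos T e hT hd
      refine ⟨?_, ?_⟩
      · rw [div_le_iff₀ hp] at h1
        exact h1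
      · have h2 := H.lvl_le T T0 e e0 hT hd hT0 hd0 hc hc0 (hl.trans hl0.symm)
        rw [div_mul_eq_mul_div, div_le_iff₀ hp0]
        linarith
    · refine ⟨1, one_pos, fun e he => absurd ⟨e, he⟩ hne⟩
  choose X hX using h
  exact ⟨X, fun k => (hX k).1, fun k => (hX k).2⟩

theorem abs_dl {l : Fin n → ℝ} (hl : l ∈ cube n) {T : Finset I} {e : E} (hT : Spans a T)
    (he : Dir a T e) : |dl a B l e| ≤ 2 * n * κ * nrm e := by
  rw [dl_apply]
  have hp := H.nrm_pos T e hT he
  calc |∑ i, l i * a (B i) e| ≤ ∑ i, |l i * a (B i) e| := abs_sum_le_sum_abs _ _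
    _ ≤ ∑ _i : Fin n, 2 * (κ * nrm e) := by
        refine sum_le_sum fun i _ => ?_
        rw [abs_mul]
        have h1 := mem_cube.1 hl i
        have h2 := H.nrm_le T e hT he (B i)
        have h3 : |l i| ≤ 2 := by rw [abs_of_nonneg (by linarith)]; exact h1.2
        have := H.hκ
        gcongr
    _ = 2 * n * κ * nrm e := by
        rw [sum_const, card_univ, Fintype.card_fin, nsmul_eq_mul]
        ring

variable {X : ℕ → ℝ} (hX : ∀ k, 0 < X k) (hX' : ∀ k, ∀ e ∈ DD a c lvl k,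
    c e ≤ X k * nrm e ∧ X k * nrm e ≤ R * c e)
include hX hX'

theorem vol_lo {M : ℕ} (hM : 0 < M) {i : ℕ} (hi : i < M) (k : ℕ) :
    volume (Ev a β c B (fun _ => True) (DD a c lvl k) (cell (X k) M i)
      (fun e => cell (X k) M (i + 1) * c e)) ≤
      ENNReal.ofReal (16 * (n * (n * κ * (1 / M)))) := by
  have hM' : (0 : ℝ) < M := by exact_mod_cast hM
  refine vol_change H.hn H.hκ (by positivity) H.hρ H.hJ _ _ _ ?_
  intro l hl w hw e he hd j hj
  rw [cell_step_lo hM hi]
  have h1 := (hX' k e he).1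
  have h2 := H.nrm_ge _ e hw.1.2 hd j hj
  have h3 := hX k
  calc 1 / (M : ℝ) / X k * c e ≤ 1 / (M : ℝ) / X k * (X k * nrm e) := by gcongr
    _ = 1 / M * nrm e := by field_simp
    _ ≤ 1 / M * |a j e| := by gcongr

theorem vol_hi {M : ℕ} (hM : 0 < M) {i : ℕ} (hi : M ≤ i) (k : ℕ) :
    volume (Ev a β c B (fun _ => True) (DD a c lvl k) (cell (X k) M i)
      (fun e => cell (X k) M (i + 1) * c e)) ≤
      ENNReal.ofReal (16 * (n * (n * κ * (2 * n * κ / M)))) := by
  have hM' : (0 : ℝ) < M := by exact_mod_cast hM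
  have hn' : (0 : ℝ) < n := by exact_mod_cast H.hn
  have hκ := H.hκ
  refine vol_change H.hn H.hκ (by positivity) H.hρ H.hJ _ _ _ ?_
  intro l hl w hw e he hd j hj
  rw [cell_step_hi hM hi]
  have h2 := H.nrm_ge _ e hw.1.2 hd j hj
  have h3 := H.abs_dl hl hw.1.2 hd
  have h4 := hw.2 e hd
  have h5 : cell (X k) M i * c e ≤ 2 * n * κ * nrm e := by
    have := neg_abs_le (dl a B l e)
    linarith
  calc cell (X k) M i / M * c e = (1 / M) * (cell (X k) M i * c e) := by ring
    _ ≤ (1 / M) * (2 * n * κ * |a j e|) :=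
        mul_le_mul_of_nonneg_left (h5.trans (by gcongr)) (by positivity)
    _ = 2 * n * κ / M * |a j e| := by ring

/-- expected number of events at resolution `M` -/
theorem expected (β : I → ℝ) {M : ℕ} (hM : 0 < M) (ℓ : ℕ) :
    ∫⁻ l, (∑ p ∈ range n ×ˢ range (M + M * ℓ),
      (Ev a β c B (fun _ => True) (DD a c lvl p.1) (cell (X p.1) M p.2)
      (fun e => cell (X p.1) M (p.2 + 1) * c e)).indicator (fun _ => (1 : ENNReal)) l) ≤
    ENNReal.ofReal (16 * (n ^ 3 * κ * (1 + 2 * n * κ * ℓ))) := by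
  have hM' : (0 : ℝ) < M := by exact_mod_cast hM
  have hn' : (0 : ℝ) < n := by exact_mod_cast H.hn
  have hκ := H.hκ
  rw [lintegral_finsetSum _ (fun p _ => (measurable_const.indicator (measurable_Ev _ _ _ _)))]
  simp only [lintegral_indicator (measurable_Ev _ _ _ _), lintegral_const, one_mul,
    Measure.restrict_apply MeasurableSet.univ, Set.univ_inter]
  rw [sum_product]
  have h1 : ∀ k, ∑ i ∈ range (M + M * ℓ), volume (Ev a β c B (fun _ => True) (DD a c lvl k)
      (cell (X k) M i) (fun e => cell (X k) M (i + 1) * c e)) ≤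
      ENNReal.ofReal (16 * (n ^ 2 * κ * (1 + 2 * n * κ * ℓ))) := by
    intro k
    rw [range_eq_Ico, ← sum_Ico_consecutive _ (Nat.zero_le M) (Nat.le_add_right M (M * ℓ))]
    have h2 : ∑ i ∈ Ico 0 M, volume (Ev a β c B (fun _ => True) (DD a c lvl k)
        (cell (X k) M i) (fun e => cell (X k) M (i + 1) * c e)) ≤
        ENNReal.ofReal (16 * (n * (n * κ))) := by
      calc _ ≤ ∑ _i ∈ Ico 0 M, ENNReal.ofReal (16 * (n * (n * κ * (1 / M)))) :=
            sum_le_sum fun i hi => H.vol_lo hX hX' hM (mem_Ico.1 hi).2 k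
        _ = _ := by
            rw [sum_const, Nat.card_Ico, Nat.sub_zero, nsmul_eq_mul, ← ENNReal.ofReal_natCast,
              ← ENNReal.ofReal_mul (by positivity)]
            congr 1
            field_simp
    have h3 : ∑ i ∈ Ico M (M + M * ℓ), volume (Ev a β c B (fun _ => True) (DD a c lvl k)
        (cell (X k) M i) (fun e => cell (X k) M (i + 1) * c e)) ≤
        ENNReal.ofReal (16 * (n * (n * κ * (2 * n * κ * ℓ)))) := by
      calc _ ≤ ∑ _i ∈ Ico M (M + M * ℓ),
            ENNReal.ofReal (16 * (n * (n * κ * (2 * n * κ / M)))) :=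
            sum_le_sum fun i hi => H.vol_hi hX hX' hM (mem_Ico.1 hi).1 k
        _ = _ := by
            rw [sum_const, Nat.card_Ico, Nat.add_sub_cancel_left, nsmul_eq_mul,
              ← ENNReal.ofReal_natCast, ← ENNReal.ofReal_mul (by positivity)]
            congr 1
            push_cast
            field_simp
    refine (add_le_add h2 h3).trans ?_
    rw [← ENNReal.ofReal_add (by positivity) (by positivity)]
    apply ENNReal.ofReal_le_ofReal
    apply le_of_eq
    ring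
  calc _ ≤ ∑ _k ∈ range n, ENNReal.ofReal (16 * (n ^ 2 * κ * (1 + 2 * n * κ * ℓ))) :=
        sum_le_sum fun k _ => h1 k
    _ = _ := by
        rw [sum_const, card_range, nsmul_eq_mul, ← ENNReal.ofReal_natCast,
          ← ENNReal.ofReal_mul (by positivity)]
        congr 1
        ring

end Dat

/-- the time at which a vertex of the path is left -/
theorem exit_time {l : Fin n → ℝ} {t : ℝ} {w : E} (hw : At a β c B l t w)
    (hne : ∃ e, Dir a (tight a β w) e ∧ 0 < c e) :
    ∃ (r : ℝ) (e : E), t < r ∧ Dir a (tight a β w) e ∧ 0 < c e ∧ dl a B l e + r * c e = 0 ∧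
      ∀ s, t ≤ s → s < r → At a β c B l s w := by
  classical
  set F : Finset E := (dir_finite a (tight a β w)).toFinset.filter (fun e => 0 < c e) with hF
  have memF : ∀ e, e ∈ F ↔ Dir a (tight a β w) e ∧ 0 < c e := fun e => by
    rw [hF, mem_filter, Set.Finite.mem_toFinset]; rfl
  obtain ⟨e0, he0⟩ := hne
  obtain ⟨e, he, hmin⟩ := exists_min_image F (fun e => -dl a B l e / c e) ⟨e0, (memF _).2 he0⟩
  obtain ⟨hd, hc⟩ := (memF e).1 he
  refine ⟨-dl a B l e / c e, e, ?_, hd, hc, ?_, ?_⟩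
  · rw [lt_div_iff₀ hc]
    have := hw.2 e hd
    linarith
  · field_simp
    ring
  · intro s hts hs
    refine ⟨hw.1, fun e' he' => ?_⟩
    have h1 := hw.2 e' he'
    rcases le_or_gt (c e') 0 with h2 | h2
    · have : s * c e' ≤ t * c e' := mul_le_mul_of_nonpos_right hts h2
      linarith
    · have h3 := hmin e' ((memF e').2 ⟨he', h2⟩)
      have h4 : s < -dl a B l e' / c e' := lt_of_lt_of_le hs h3
      rw [lt_div_iff₀ h2] at h4
      linarith

namespace Dat

variable (H : Dat a c B κ R nrm lvl)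
include H

/-- for fine resolution each step of a path is seen by an event -/
theorem steps_le {X : ℕ → ℝ} (hX : ∀ k, 0 < X k) (hX' : ∀ k, ∀ e ∈ DD a c lvl k,
    c e ≤ X k * nrm e ∧ X k * nrm e ≤ R * c e) {ℓ : ℕ} (hℓ : 2 * n * κ * R ≤ 2 ^ ℓ)
    {l : Fin n → ℝ} (hl : l ∈ cube n) {N : ℕ} {x : ℕ → E} {t : ℕ → ℝ}
    (h0 : ∀ k ≤ N, 0 ≤ t k ∧ At a β c B l (t k) (x k))
    (hinj : ∀ k k', k < k' → k' ≤ N → x k ≠ x k')
    (hdir : ∀ k < N, ∃ e, Dir a (tight a β (x k)) e ∧ 0 < c e) :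
    ∃ M₀ : ℕ, ∀ M : ℕ, M₀ ≤ M → 0 < M → (N : ENNReal) ≤
      ∑ p ∈ range n ×ˢ range (M + M * ℓ),
      (Ev a β c B (fun _ => True) (DD a c lvl p.1) (cell (X p.1) M p.2)
      (fun e => cell (X p.1) M (p.2 + 1) * c e)).indicator (fun _ => (1 : ENNReal)) l := by
  classical
  have hκ := H.hκ
  have hex : ∀ k : ℕ, ∃ (r : ℝ) (e : E), k < N → t k < r ∧ Dir a (tight a β (x k)) e ∧ 0 < c e ∧
      dl a B l e + r * c e = 0 ∧ ∀ s, t k ≤ s → s < r → At a β c B l s (x k) := by
    intro k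
    by_cases hk : k < N
    · obtain ⟨r, e, h⟩ := exit_time (h0 k hk.le).2 (hdir k hk)
      exact ⟨r, e, fun _ => h⟩
    · exact ⟨0, 0, fun h => absurd h hk⟩
  choose r e hre using hex
  have hM : ∀ k : ℕ, ∃ M₀ : ℕ, ∀ M : ℕ, M₀ ≤ M → k < N → 0 < M →
      (1 / (M : ℝ)) * (1 / X (lvl (e k)) + r k) < r k - t k := by
    intro k
    by_cases hk : k < N
    · obtain ⟨h1, -⟩ := hre k hk
      have h2 : 0 < r k - t k := by linarith
      have h3 := (h0 k hk.le).1
      have h4 : 0 < 1 / X (lvl (e k)) + r k := by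
        have := hX (lvl (e k))
        have : 0 < 1 / X (lvl (e k)) := by positivity
        linarith
      obtain ⟨M₀, hM₀⟩ := exists_nat_gt ((1 / X (lvl (e k)) + r k) / (r k - t k))
      refine ⟨M₀, fun M hM _ hMp => ?_⟩
      have hM' : (0 : ℝ) < M := by exact_mod_cast hMp
      have h5 : (M₀ : ℝ) ≤ M := by exact_mod_cast hM
      rw [div_lt_iff₀ h2] at hM₀
      rw [one_div, inv_mul_lt_iff₀ hM']
      nlinarith
    · exact ⟨0, fun _ _ h => absurd h hk⟩
  choose M₁ hM₁ using hM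
  refine ⟨(range N).sup M₁, fun M hMle hMpos => ?_⟩
  have hcell : ∀ k : ℕ, ∃ i : ℕ, k < N → i < M + M * ℓ ∧
      cell (X (lvl (e k))) M i < r k ∧ r k ≤ cell (X (lvl (e k))) M (i + 1) ∧
      t k < cell (X (lvl (e k))) M i := by
    intro k
    by_cases hk : k < N
    · obtain ⟨h1, h2, h3, h4, h5⟩ := hre k hk
      have hw := (h0 k hk.le)
      have hT := hw.2.1.2
      have hp := H.nrm_pos _ _ hT h2
      have hrk : r k ≤ 2 ^ ℓ / X (lvl (e k)) := by
        have hXk := hX (lvl (e k))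
        have h6 := (hX' (lvl (e k)) (e k) ⟨_, hT, h2, h3, rfl⟩).2
        have h7 := H.abs_dl hl hT h2
        have h8 : r k * c (e k) ≤ 2 * n * κ * nrm (e k) := by
          have := neg_abs_le (dl a B l (e k))
          linarith
        rw [le_div_iff₀ hXk]
        have h9 : r k * X (lvl (e k)) * (c (e k) * nrm (e k)) ≤
            2 ^ ℓ * (c (e k) * nrm (e k)) := by
          calc r k * X (lvl (e k)) * (c (e k) * nrm (e k))
              = (r k * c (e k)) * (X (lvl (e k)) * nrm (e k)) := by ring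
            _ ≤ (2 * n * κ * nrm (e k)) * (R * c (e k)) := by
                gcongr
            _ = (2 * n * κ * R) * (c (e k) * nrm (e k)) := by ring
            _ ≤ 2 ^ ℓ * (c (e k) * nrm (e k)) := by gcongr
        exact le_of_mul_le_mul_right h9 (by positivity)
      obtain ⟨i, hi1, hi2, hi3, hi4⟩ := exists_cell (M := M) (hX (lvl (e k))) hMpos
        (lt_of_le_of_lt hw.1 h1) hrk
      refine ⟨i, fun _ => ⟨hi1, hi2, hi3, ?_⟩⟩
      have h6 := hM₁ k M ((Finset.le_sup (f := M₁) (mem_range.2 hk)).trans hMle) hk hMpos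
      linarith
    · exact ⟨0, fun h => absurd h hk⟩
  choose i hi using hcell
  have hmem : ∀ k < N, l ∈ Ev a β c B (fun _ => True) (DD a c lvl (lvl (e k)))
      (cell (X (lvl (e k))) M (i k)) (fun e' => cell (X (lvl (e k))) M (i k + 1) * c e') := by
    intro k hk
    obtain ⟨h1, h2, h3, h4, h5⟩ := hre k hk
    obtain ⟨g1, g2, g3, g4⟩ := hi k hk
    have hw := (h0 k hk.le)
    refine ⟨hl, x k, h5 _ g4.le g2, trivial, e k, ⟨_, hw.2.1.2, h2, h3, rfl⟩, h2, ?_⟩
    have : r k * c (e k) ≤ cell (X (lvl (e k))) M (i k + 1) * c (e k) := by gcongr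
    linarith
  -- the map is injective
  set f : ℕ → ℕ × ℕ := fun k => (lvl (e k), i k) with hf
  have hfinj : Set.InjOn f (↑(range N) : Set ℕ) := by
    intro k hk k' hk' hkk
    have hk := mem_range.1 (mem_coe.1 hk)
    have hk' := mem_range.1 (mem_coe.1 hk')
    simp only [hf, Prod.mk.injEq] at hkk
    obtain ⟨-, g2, -, g4⟩ := hi k hk
    obtain ⟨-, g2', -, g4'⟩ := hi k' hk'
    have u1 := (hre k hk).2.2.2.2 _ g4.le g2
    have u2 := (hre k' hk').2.2.2.2 _ g4'.le g2'
    rw [hkk.1, hkk.2] at u1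
    have := u1.unique u2
    by_contra hne
    rcases lt_or_gt_of_ne hne with h | h
    · exact hinj _ _ h hk'.le this
    · exact hinj _ _ h hk.le this.symm
  calc (N : ENNReal) = ∑ _k ∈ range N, (1 : ENNReal) := by simp
    _ = ∑ k ∈ range N, (Ev a β c B (fun _ => True) (DD a c lvl (f k).1)
        (cell (X (f k).1) M (f k).2)
        (fun e => cell (X (f k).1) M ((f k).2 + 1) * c e)).indicator
          (fun _ => (1 : ENNReal)) l := by
        refine sum_congr rfl fun k hk => ?_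
        rw [Set.indicator_of_mem (hmem k (mem_range.1 hk))]
    _ = ∑ p ∈ (range N).image f, (Ev a β c B (fun _ => True) (DD a c lvl p.1)
        (cell (X p.1) M p.2)
        (fun e => cell (X p.1) M (p.2 + 1) * c e)).indicator
          (fun _ => (1 : ENNReal)) l := by
        rw [sum_image (fun k hk k' hk' h => hfinj hk hk' h)]
    _ ≤ _ := by
        refine sum_le_sum_of_subset ?_
        intro p hp
        obtain ⟨k, hk, rfl⟩ := mem_image.1 hp
        have hk := mem_range.1 hk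
        obtain ⟨h1, h2, h3, h4, h5⟩ := hre k hk
        exact mem_product.2 ⟨mem_range.2 (H.lvl_lt _ _ (h0 k hk.le).2.1.2 h2 h3),
          mem_range.2 (hi k hk).1⟩

end Dat

end Pool.Agent.K4H87.BS
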