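import Pool.Agent.K4H87.BS.Vol
import Pool.Agent.K4H92.LP.Path

/-! Events: the optimal vertex for a random auxiliary objective changes in a short interval. -/

set_option autoImplicit false

namespace Pool.Agent.K4H87.BS

open MeasureTheory Finset Pool.Agent.K4H92.LP

variable {n : ℕ} {E : Type*} [AddCommGroup E] [Module ℝ E] {I : Type*} [Fintype I]
  (a : I → E →ₗ[ℝ] ℝ) (β : I → ℝ) (c : E →ₗ[ℝ] ℝ) (B : Fin n → I)

/-- the auxiliary objective -/
def dl (l : Fin n → ℝ) : E →ₗ[ℝ] ℝ := ∑ i, l i • a (B i)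

variable {a B}

theorem dl_apply (l : Fin n → ℝ) (e : E) : dl a B l e = ∑ i, l i * a (B i) e := by
  simp [dl, LinearMap.sum_apply]

theorem dl_add (l l' : Fin n → ℝ) (e : E) : dl a B (l + l') e = dl a B l e + dl a B l' e := by
  simp only [dl_apply, Pi.add_apply, add_mul, sum_add_distrib]

theorem dl_smul (r : ℝ) (l : Fin n → ℝ) (e : E) : dl a B (r • l) e = r * dl a B l e := by
  simp only [dl_apply, Pi.smul_apply, smul_eq_mul, mul_sum, mul_assoc]

theorem measurable_dl (e : E) : Measurable fun l : Fin n → ℝ => dl a B l e := by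
  simp only [dl_apply]
  fun_prop

variable (a B)

/-- `w` is strictly optimal for the objective `dl l + t c` -/
def At (l : Fin n → ℝ) (t : ℝ) (w : E) : Prop :=
  Vert a β w ∧ ∀ e, Dir a (tight a β w) e → dl a B l e + t * c e < 0

variable {a β c B}

theorem At.unique {l : Fin n → ℝ} {t : ℝ} {w w' : E} (h : At a β c B l t w)
    (h' : At a β c B l t w') : w = w' := by
  by_contra hne
  have h1 := vert_lt h.1 (f := dl a B l + t • c) (fun e he => by simpa using h.2 e he) h'.1.1
    (Ne.symm hne)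
  have h2 := vert_lt h'.1 (f := dl a B l + t • c) (fun e he => by simpa using h'.2 e he) h.1.1 hne
  exact lt_asymm h1 h2

variable (a β c B)

/-- general events -/
def Ev (G : Finset I → Prop) (D : Set E) (t : ℝ) (r : E → ℝ) : Set (Fin n → ℝ) :=
  {l | l ∈ cube n ∧ ∃ w, At a β c B l t w ∧ G (tight a β w) ∧
    ∃ e ∈ D, Dir a (tight a β w) e ∧ 0 ≤ dl a B l e + r e}

variable {a β c B}

theorem measurable_Ev (G : Finset I → Prop) (D : Set E) (t : ℝ) (r : E → ℝ) :
    MeasurableSet (Ev a β c B G D t r) := by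
  classical
  have h1 : Ev a β c B G D t r = cube n ∩ ⋃ T : Finset I,
      ({l | (∃ w, Vert a β w ∧ tight a β w = T) ∧ G T} ∩
      ((⋂ e ∈ {e | Dir a T e}, {l | dl a B l e + t * c e < 0}) ∩
        ⋃ e ∈ {e | Dir a T e ∧ e ∈ D}, {l | 0 ≤ dl a B l e + r e})) := by
    ext l
    simp only [Ev, At, Set.mem_setOf_eq, Set.mem_inter_iff, Set.mem_iUnion, Set.mem_iInter]
    constructor
    · rintro ⟨hl, w, ⟨hw, hw'⟩, hG, e, heD, he, h0⟩
      exact ⟨hl, tight a β w, ⟨⟨w, hw, rfl⟩, hG⟩, hw', e, ⟨he, heD⟩, h0⟩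
    · rintro ⟨hl, T, ⟨⟨w, hw, rfl⟩, hG⟩, hw', e, ⟨he, heD⟩, h0⟩
      exact ⟨hl, w, ⟨hw, hw'⟩, hG, e, heD, he, h0⟩
  rw [h1]
  refine MeasurableSet.inter measurableSet_Icc (MeasurableSet.iUnion fun T => ?_)
  refine MeasurableSet.inter (MeasurableSet.const _) (MeasurableSet.inter ?_ ?_)
  · refine MeasurableSet.biInter (dir_finite a T).countable fun e _ => ?_
    exact measurableSet_lt ((measurable_dl e).add_const _) measurable_const
  · refine MeasurableSet.biUnion ((dir_finite a T).subset fun e he => he.1).countable fun e _ => ?_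
    exact measurableSet_le measurable_const ((measurable_dl e).add_const _)

variable (a β c B) in
/-- objectives for which the optimal vertex has the tight rows `T` -/
def CT (t : ℝ) (T : Finset I) : Set (Fin n → ℝ) :=
  {l | l ∈ box n ∧ ∃ w, At a β c B l t w ∧ tight a β w = T}

theorem measurable_CT (t : ℝ) (T : Finset I) : MeasurableSet (CT a β c B t T) := by
  have h1 : CT a β c B t T = box n ∩
      ({l | (∃ w, Vert a β w ∧ tight a β w = T)} ∩
      (⋂ e ∈ {e | Dir a T e}, {l | dl a B l e + t * c e < 0})) := by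
    ext l
    simp only [CT, At, Set.mem_setOf_eq, Set.mem_inter_iff, Set.mem_iInter]
    constructor
    · rintro ⟨hl, w, ⟨hw, hw'⟩, rfl⟩
      exact ⟨hl, ⟨w, hw, rfl⟩, hw'⟩
    · rintro ⟨hl, ⟨w, hw, rfl⟩, hw'⟩
      exact ⟨hl, w, ⟨hw, hw'⟩, rfl⟩
  rw [h1]
  refine MeasurableSet.inter measurableSet_Icc (MeasurableSet.inter (MeasurableSet.const _) ?_)
  refine MeasurableSet.biInter (dir_finite a T).countable fun e _ => ?_
  exact measurableSet_lt ((measurable_dl e).add_const _) measurable_const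

theorem sum_CT (t : ℝ) : ∑ T : Finset I, volume (CT a β c B t T) ≤ volume (box n) := by
  classical
  rw [← measure_biUnion_finset (fun T _ T' _ hne => ?_) (fun T _ => measurable_CT t T)]
  · apply measure_mono
    intro l hl
    simp only [Set.mem_iUnion] at hl
    obtain ⟨T, -, hl⟩ := hl
    exact hl.1
  · rw [Function.onFun, Set.disjoint_left]
    rintro l ⟨-, w, hw, rfl⟩ ⟨-, w', hw', rfl⟩
    exact hne (by rw [hw.unique hw'])

/-- the margin of the row `j` is at most `δ` -/
theorem vol_margin (hn : 0 < n) {κ δ : ℝ} (hκ : 0 < κ) (hδ : 0 < δ) {T : Finset I} {j : I}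
    (hjT : j ∈ T)
    (ρ : Fin n → ℝ) (hρ : ∀ i, |ρ i| ≤ κ) (hj : ∀ e, a j e = ∑ i, ρ i * a (B i) e) (t : ℝ) :
    volume (Ev a β c B (fun T' => T' = T) Set.univ t (fun e => t * c e - δ * a j e)) ≤
      ENNReal.ofReal (2 * (n * κ * δ)) * volume (CT a β c B t T) := by
  have hdl : ∀ e, dl a B ρ e = a j e := fun e => by rw [dl_apply, hj]
  have hat : ∀ (k : ℕ) (x : Fin n → ℝ) w, At a β c B x t w → tight a β w = T →
      At a β c B (x + ((k : ℝ) * δ) • ρ) t w := by
    intro k x w hw hwT
    refine ⟨hw.1, fun e' he' => ?_⟩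
    rw [dl_add, dl_smul, hdl]
    have h1 := hw.2 e' he'
    have h2 := he'.1 j (by rw [hwT]; exact hjT)
    have h3 : (k : ℝ) * δ * a j e' ≤ 0 := mul_nonpos_of_nonneg_of_nonpos (by positivity) h2
    linarith
  refine vol_small hn (measurable_Ev _ _ _ _) hκ hδ ρ ?_ ?_
  · rintro k hk x ⟨hx, w, hw, hwT, -⟩
    exact ⟨cube_add hx hρ (by positivity) hk, w, hat k x w hw hwT, hwT⟩
  rintro k l hkl x ⟨hx, w, hw, hwT, e, -, he, h0⟩ y ⟨hy, w', hw', hwT', -⟩ heq
  have hkl' : (k : ℝ) + 1 ≤ l := by exact_mod_cast hkl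
  -- both vertices are optimal for the common point
  have hatx := hat k x w hw hwT
  have haty := hat l y w' hw' hwT'
  rw [heq] at hatx
  obtain rfl := hatx.unique haty
  have h1 := hw'.2 e he
  have h2 := he.1 j (by rw [hwT]; exact hjT)
  have h3 : dl a B x e + (k : ℝ) * δ * a j e = dl a B y e + (l : ℝ) * δ * a j e := by
    have := congrArg (fun z => dl a B z e) heq
    simpa only [dl_add, dl_smul, hdl] using this
  have h4 : ((l : ℝ) - k - 1) * δ * a j e ≤ 0 :=
    mul_nonpos_of_nonneg_of_nonpos (mul_nonneg (by linarith) hδ.le) h2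
  nlinarith

/-- the optimal vertex is left between `s` and `t` along a direction in `D` -/
theorem vol_change (hn : 0 < n) {κ δ : ℝ} (hκ : 0 < κ) (hδ : 0 < δ)
    (hρ : ∀ j : I, ∃ ρ : Fin n → ℝ, (∀ i, |ρ i| ≤ κ) ∧ ∀ e, a j e = ∑ i, ρ i * a (B i) e)
    (hJ : ∀ T : Finset I, Spans a T → ∃ J ⊆ T, J.card ≤ n ∧ Spans a J)
    (D : Set E) (s t : ℝ)
    (hD : ∀ l ∈ cube n, ∀ w, At a β c B l s w → ∀ e ∈ D, Dir a (tight a β w) e →
      ∀ j, a j e ≠ 0 → (t - s) * c e ≤ δ * |a j e|) :
    volume (Ev a β c B (fun _ => True) D s (fun e => t * c e)) ≤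
      ENNReal.ofReal (16 * (n * (n * κ * δ))) := by
  classical
  have hJ' : ∀ T : Finset I, ∃ J ⊆ T, J.card ≤ n ∧ (Spans a T → Spans a J) := by
    intro T
    by_cases h : Spans a T
    · obtain ⟨J, h1, h2, h3⟩ := hJ T h
      exact ⟨J, h1, h2, fun _ => h3⟩
    · exact ⟨∅, empty_subset _, by simp, fun h' => absurd h' h⟩
  choose J hJT hJn hJs using hJ'
  have hsub : Ev a β c B (fun _ => True) D s (fun e => t * c e) ⊆
      ⋃ T ∈ (univ : Finset (Finset I)), ⋃ j ∈ J T,
        Ev a β c B (fun T' => T' = T) Set.univ s (fun e => s * c e - δ * a j e) := by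
    rintro l ⟨hl, w, hw, -, e, heD, he, h0⟩
    have hex : ∃ j ∈ J (tight a β w), a j e ≠ 0 := by
      by_contra hcon
      push Not at hcon
      exact he.ne_zero (hJs _ hw.1.2 e hcon)
    obtain ⟨j, hj, hje⟩ := hex
    simp only [Set.mem_iUnion]
    refine ⟨tight a β w, mem_univ _, j, hj, hl, w, hw, rfl, e, trivial, he, ?_⟩
    have h1 := hD l hl w hw e heD he j hje
    have h2 := he.1 j (hJT _ hj)
    rw [abs_of_nonpos h2] at h1
    have : (t - s) * c e = t * c e - s * c e := by ring
    linarith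
  calc volume (Ev a β c B (fun _ => True) D s (fun e => t * c e))
      ≤ volume (⋃ T ∈ (univ : Finset (Finset I)), ⋃ j ∈ J T,
        Ev a β c B (fun T' => T' = T) Set.univ s (fun e => s * c e - δ * a j e)) :=
        measure_mono hsub
    _ ≤ ∑ T ∈ (univ : Finset (Finset I)), volume (⋃ j ∈ J T,
        Ev a β c B (fun T' => T' = T) Set.univ s (fun e => s * c e - δ * a j e)) :=
        measure_biUnion_finset_le _ _
    _ ≤ ∑ T ∈ (univ : Finset (Finset I)),
        (n : ENNReal) * (ENNReal.ofReal (2 * (n * κ * δ)) * volume (CT a β c B s T)) := by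
        refine sum_le_sum fun T _ => ?_
        calc volume (⋃ j ∈ J T,
              Ev a β c B (fun T' => T' = T) Set.univ s (fun e => s * c e - δ * a j e))
            ≤ ∑ j ∈ J T, volume (
              Ev a β c B (fun T' => T' = T) Set.univ s (fun e => s * c e - δ * a j e)) :=
              measure_biUnion_finset_le _ _
          _ ≤ ∑ _j ∈ J T, ENNReal.ofReal (2 * (n * κ * δ)) * volume (CT a β c B s T) := by
              refine sum_le_sum fun j hj => ?_
              obtain ⟨ρ, h1, h2⟩ := hρ j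
              exact vol_margin hn hκ hδ (hJT _ hj) ρ h1 h2 s
          _ = ((J T).card : ENNReal) *
              (ENNReal.ofReal (2 * (n * κ * δ)) * volume (CT a β c B s T)) := by
              rw [sum_const, nsmul_eq_mul]
          _ ≤ _ := by
              gcongr
              exact_mod_cast hJn T
    _ = (n : ENNReal) * (ENNReal.ofReal (2 * (n * κ * δ)) *
        ∑ T : Finset I, volume (CT a β c B s T)) := by
        rw [mul_sum, mul_sum]
    _ ≤ (n : ENNReal) * (ENNReal.ofReal (2 * (n * κ * δ)) * ENNReal.ofReal 8) := by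
        gcongr
        exact (sum_CT s).trans (vol_box hn)
    _ = ENNReal.ofReal (16 * (n * (n * κ * δ))) := by
        rw [← ENNReal.ofReal_natCast, ← ENNReal.ofReal_mul (by positivity),
          ← ENNReal.ofReal_mul (by positivity)]
        congr 1
        ring

end Pool.Agent.K4H87.BS
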