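import Pool.Agent.K4H87.BS.Rows
import Pool.Agent.K4H87.BS.Coef

/-! Norms and levels of edge directions for integral matrices with bounded subdeterminants. -/

set_option autoImplicit false

namespace Pool.Agent.K4H87.BS

open Finset Pool.Agent.K4H92.LP Matrix

variable {m n : ℕ}

/-- the scaling which makes a direction integral -/
def IsSc (A : Fin m → Fin n → ℤ) (Δ : ℕ) (e : Fin n → ℝ) (σ : ℝ) : Prop :=
  0 < σ ∧ ∀ i, ∃ z : ℤ, rows (reM A) i (σ • e) = z ∧ |z| ≤ Δ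

open Classical in
/-- the chosen scaling -/
noncomputable def sc (A : Fin m → Fin n → ℤ) (Δ : ℕ) (e : Fin n → ℝ) : ℝ :=
  if h : ∃ σ, IsSc A Δ e σ then h.choose else 1

theorem sc_spec {A : Fin m → Fin n → ℤ} {Δ : ℕ} (h : SubDet A Δ) {T : Finset (Fin m ⊕ Fin n)}
    {e : Fin n → ℝ} (he : Dir (rows (reM A)) T e) : IsSc A Δ e (sc A Δ e) := by
  have hex : ∃ σ, IsSc A Δ e σ := integral h he
  rw [sc, dif_pos hex]
  exact hex.choose_spec

/-- scaled directions of small value -/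
def low (A : Fin m → Fin n → ℤ) (Δ : ℕ) (c : (Fin n → ℝ) →ₗ[ℝ] ℝ) (X : ℝ) :
    Set (Fin n → ℝ) :=
  {w | ∃ T e, Dir (rows (reM A)) T e ∧ w = sc A Δ e • e ∧ |c w| ≤ X}

theorem low_sub {A : Fin m → Fin n → ℤ} {Δ : ℕ} (h : SubDet A Δ) (c : (Fin n → ℝ) →ₗ[ℝ] ℝ)
    (X : ℝ) : low A Δ c X ⊆ Sm n Δ := by
  rintro w ⟨T, e, he, rfl, -⟩ q
  obtain ⟨z, hz, hz'⟩ := (sc_spec h he).2 (Sum.inr q)
  rw [rows_inr] at hz
  refine ⟨-z, ?_, by rw [abs_neg]; exact hz'⟩
  push_cast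
  linarith

/-- the level of a direction -/
noncomputable def lv (A : Fin m → Fin n → ℤ) (Δ : ℕ) (c : (Fin n → ℝ) →ₗ[ℝ] ℝ)
    (e : Fin n → ℝ) : ℕ :=
  Module.finrank ℝ (Submodule.span ℝ (low A Δ c (sc A Δ e * c e))) - 1

theorem mem_low {A : Fin m → Fin n → ℤ} {Δ : ℕ} (h : SubDet A Δ) {c : (Fin n → ℝ) →ₗ[ℝ] ℝ}
    {T : Finset (Fin m ⊕ Fin n)} {e : Fin n → ℝ} (he : Dir (rows (reM A)) T e) (hc : 0 < c e) :
    sc A Δ e • e ∈ low A Δ c (sc A Δ e * c e) := by
  refine ⟨T, e, he, rfl, ?_⟩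
  rw [map_smul, smul_eq_mul, abs_of_nonneg]
  exact mul_nonneg (sc_spec h he).1.le hc.le

theorem finrank_low {A : Fin m → Fin n → ℤ} {Δ : ℕ} (h : SubDet A Δ)
    {c : (Fin n → ℝ) →ₗ[ℝ] ℝ} {T : Finset (Fin m ⊕ Fin n)} {e : Fin n → ℝ}
    (he : Dir (rows (reM A)) T e) (hc : 0 < c e) :
    1 ≤ Module.finrank ℝ (Submodule.span ℝ (low A Δ c (sc A Δ e * c e))) := by
  rw [Nat.one_le_iff_ne_zero, Ne, Submodule.finrank_eq_zero]
  intro h0
  have h1 := Submodule.subset_span (R := ℝ) (mem_low h he hc)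
  rw [h0] at h1
  have h3 : sc A Δ e • e = 0 := by simpa using h1
  rcases smul_eq_zero.1 h3 with h2 | h2
  · exact (sc_spec h he).1.ne' h2
  · exact he.ne_zero h2

theorem dat {A : Fin m → Fin n → ℤ} {Δ : ℕ} (h : SubDet A Δ) (hn : 0 < n)
    (c : (Fin n → ℝ) →ₗ[ℝ] ℝ) {B : Fin n → Fin m ⊕ Fin n} (hB : Ind A B) :
    Dat (rows (reM A)) c B (Δ : ℝ) ((n * (n.factorial * Δ ^ n) : ℕ) : ℝ)
      (fun e => (sc A Δ e)⁻¹) (lv A Δ c) := by
  have hΔ := h.one_le
  have hΔr : (1 : ℝ) ≤ Δ := by exact_mod_cast hΔ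
  have hnf : 0 < n.factorial := Nat.factorial_pos n
  refine ⟨hn, by linarith, by positivity, ?_, ?_, ?_, ?_, ?_, ?_, ?_⟩
  · intro j
    obtain ⟨C, hC1, hC2⟩ := coord h B j
    have hD : (sq A B).det ≠ 0 := hB.det_ne
    have hDr : ((sq A B).det : ℝ) ≠ 0 := by exact_mod_cast hD
    have hDa : (1 : ℝ) ≤ |((sq A B).det : ℝ)| := by
      have : (1 : ℤ) ≤ |(sq A B).det| := Int.one_le_abs hD
      exact_mod_cast this
    refine ⟨fun i => (C i : ℝ) / ((sq A B).det : ℝ), fun i => ?_, fun e => ?_⟩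
    · rw [abs_div, div_le_iff₀ (by linarith)]
      have h1 : |(C i : ℝ)| ≤ Δ := by exact_mod_cast hC1 i
      nlinarith
    · have h1 := hC2 e
      have h2 : ∑ i, (C i : ℝ) / ((sq A B).det : ℝ) * rows (reM A) (B i) e =
          (∑ i, (C i : ℝ) * rows (reM A) (B i) e) / ((sq A B).det : ℝ) := by
        rw [sum_div]
        refine sum_congr rfl fun i _ => ?_
        ring
      rw [h2, ← h1, mul_div_cancel_left₀ _ hDr]
  · intro T hT
    obtain ⟨B', hB1, hB2, -⟩ := pick (A := A) (T := {i | i ∈ T}) (fun g hg => hT g hg)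
    refine ⟨univ.image B', fun i hi => ?_, ?_, fun g hg => hB2 g fun p => ?_⟩
    · obtain ⟨p, -, rfl⟩ := mem_image.1 hi
      exact hB1 p
    · exact card_image_le.trans (by simp)
    · exact hg _ (mem_image_of_mem _ (mem_univ p))
  · intro T e _ he
    exact inv_pos.2 (sc_spec h he).1
  · intro T e _ he i
    obtain ⟨hs, h1⟩ := sc_spec h he
    obtain ⟨z, hz, hz'⟩ := h1 i
    rw [map_smul, smul_eq_mul] at hz
    rw [← div_eq_mul_inv, le_div_iff₀ hs, mul_comm, ← abs_of_pos hs, ← abs_mul, hz]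
    exact_mod_cast hz'
  · intro T e _ he j hj
    obtain ⟨hs, h1⟩ := sc_spec h he
    obtain ⟨z, hz, hz'⟩ := h1 j
    rw [map_smul, smul_eq_mul] at hz
    have hz0 : z ≠ 0 := by
      rintro rfl
      rw [Int.cast_zero] at hz
      rcases mul_eq_zero.1 hz with h2 | h2
      · exact hs.ne' h2
      · exact hj h2
    have h2 : (1 : ℝ) ≤ |(z : ℝ)| := by exact_mod_cast Int.one_le_abs hz0
    rw [← hz, abs_mul, abs_of_pos hs] at h2
    rw [inv_le_iff_one_le_mul₀ hs, mul_comm]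
    exact h2
  · intro T e _ he hc
    have h1 := finrank_low h he hc
    have h2 := Submodule.finrank_le (Submodule.span ℝ (low A Δ c (sc A Δ e * c e)))
    simp only [Module.finrank_fintype_fun_eq_card, Fintype.card_fin] at h2
    unfold lv
    omega
  · intro T T' e e' _ he _ he' hc hc' hl
    have hs := (sc_spec h he).1
    have hs' := (sc_spec h he').1
    have hR : (1 : ℝ) ≤ ((n * (n.factorial * Δ ^ n) : ℕ) : ℝ) := by
      have : 1 ≤ n * (n.factorial * Δ ^ n) := Nat.one_le_iff_ne_zero.2 (by positivity)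
      exact_mod_cast this
    -- comparison of the scaled values
    have key : sc A Δ e' * c e' ≤ ((n * (n.factorial * Δ ^ n) : ℕ) : ℝ) * (sc A Δ e * c e) := by
      rcases le_or_gt (sc A Δ e' * c e') (sc A Δ e * c e) with h1 | h1
      · have h2 : 0 ≤ sc A Δ e * c e := by positivity
        nlinarith
      · have hsub : low A Δ c (sc A Δ e * c e) ⊆ low A Δ c (sc A Δ e' * c e') := by
          rintro w ⟨T, f, hf, hw, hcw⟩
          exact ⟨T, f, hf, hw, hcw.trans h1.le⟩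
        have hle := Submodule.span_mono (R := ℝ) hsub
        have heq : Module.finrank ℝ (Submodule.span ℝ (low A Δ c (sc A Δ e * c e))) =
            Module.finrank ℝ (Submodule.span ℝ (low A Δ c (sc A Δ e' * c e'))) := by
          have g1 := finrank_low h he hc
          have g2 := finrank_low h he' hc'
          unfold lv at hl
          omega
        have hspan := Submodule.eq_of_le_of_finrank_eq hle heq
        have hmem : sc A Δ e' • e' ∈ Submodule.span ℝ (low A Δ c (sc A Δ e * c e)) := by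
          rw [hspan]
          exact Submodule.subset_span (mem_low h he' hc')
        have hb := coef_bound hΔ _ (low_sub h c _) (low_sub h c _ (mem_low h he' hc')) hmem c
          (X := sc A Δ e * c e) (by positivity) (by
            rintro s ⟨T, f, hf, hs, hcs⟩
            exact hcs)
        rw [map_smul, smul_eq_mul, abs_of_nonneg (by positivity)] at hb
        exact hb
    have e1 : c e' * (sc A Δ e)⁻¹ = (sc A Δ e' * c e') * ((sc A Δ e)⁻¹ * (sc A Δ e')⁻¹) := by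
      field_simp
    have e2 : ((n * (n.factorial * Δ ^ n) : ℕ) : ℝ) * (c e * (sc A Δ e')⁻¹) =
        (((n * (n.factorial * Δ ^ n) : ℕ) : ℝ) * (sc A Δ e * c e)) *
          ((sc A Δ e)⁻¹ * (sc A Δ e')⁻¹) := by
      field_simp
    rw [e1, e2]
    exact mul_le_mul_of_nonneg_right key (by positivity)

/-- the final arithmetic -/
theorem arith {n Δ : ℕ} (hn : 0 < n) (hΔ : 1 ≤ Δ) :
    2 * (n : ℝ) * Δ * ((n * (n.factorial * Δ ^ n) : ℕ) : ℝ) ≤
      2 ^ ((Nat.log 2 (n * Δ) + 1) * (n + 2) + 1) := by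
  have h1 : n.factorial ≤ n ^ n := Nat.factorial_le_pow n
  have h2 : n * Δ < 2 ^ (Nat.log 2 (n * Δ) + 1) := Nat.lt_pow_succ_log_self (by norm_num) _
  have h3 : n ≤ n * Δ := Nat.le_mul_of_pos_right n hΔ
  have h4 : 2 * n * Δ * (n * (n.factorial * Δ ^ n)) ≤
      2 ^ ((Nat.log 2 (n * Δ) + 1) * (n + 2) + 1) := by
    calc 2 * n * Δ * (n * (n.factorial * Δ ^ n))
        ≤ 2 * n * Δ * (n * (n ^ n * Δ ^ n)) := by gcongr
      _ = 2 * (n * Δ) * (n * (n * Δ) ^ n) := by rw [mul_pow]; ring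
      _ ≤ 2 * (n * Δ) * ((n * Δ) * (n * Δ) ^ n) := by gcongr
      _ = 2 * (n * Δ) ^ (n + 2) := by ring
      _ ≤ 2 * (2 ^ (Nat.log 2 (n * Δ) + 1)) ^ (n + 2) := by gcongr
      _ = 2 ^ ((Nat.log 2 (n * Δ) + 1) * (n + 2) + 1) := by rw [← pow_mul, pow_succ]; ring
  exact_mod_cast h4

end Pool.Agent.K4H87.BS
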