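import Pool.Agent.K4H87.BS.Tail
import Pool.Agent.K4H92.LP.Link

/-! Integral matrices with bounded subdeterminants. -/

set_option autoImplicit false

namespace Pool.Agent.K4H87.BS

open Finset Pool.Agent.K4H92.LP Matrix

variable {m n : ℕ}

/-- integral row vectors of the constraints `A x ≤ b`, `-x ≤ 0` -/
def rw' (A : Fin m → Fin n → ℤ) : Fin m ⊕ Fin n → Fin n → ℤ
  | Sum.inl i => A i
  | Sum.inr j => fun q => if q = j then -1 else 0

/-- the real matrix -/
def reM (A : Fin m → Fin n → ℤ) : Fin m → Fin n → ℝ := fun i j => (A i j : ℝ)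

theorem rows_eq (A : Fin m → Fin n → ℤ) (i : Fin m ⊕ Fin n) (x : Fin n → ℝ) :
    rows (reM A) i x = ∑ q, (rw' A i q : ℝ) * x q := by
  rcases i with i | j
  · rw [rows_inl]; rfl
  · rw [rows_inr]
    simp [rw']

/-- all square submatrices have determinants of absolute value at most `Δ` -/
def SubDet (A : Fin m → Fin n → ℤ) (Δ : ℕ) : Prop :=
  ∀ (k : ℕ) (r : Fin k → Fin m) (s : Fin k → Fin n),
    |(Matrix.of fun p q => A (r p) (s q)).det| ≤ Δ

theorem SubDet.one_le {A : Fin m → Fin n → ℤ} {Δ : ℕ} (h : SubDet A Δ) : 1 ≤ Δ := by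
  have := h 0 Fin.elim0 Fin.elim0
  simp at this
  omega

theorem SubDet.ext {A : Fin m → Fin n → ℤ} {Δ : ℕ} (h : SubDet A Δ) (k : ℕ) :
    ∀ (f : Fin k → Fin m ⊕ Fin n) (s : Fin k → Fin n), Function.Injective s →
      |(Matrix.of fun p q => rw' A (f p) (s q)).det| ≤ Δ := by
  induction k with
  | zero =>
    intro f s _
    have := h.one_le
    simp
    omega
  | succ k ih =>
    intro f s hs
    by_cases hf : ∃ p j, f p = Sum.inr j
    · obtain ⟨p, j, hp⟩ := hf
      rw [Matrix.det_succ_row _ p]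
      by_cases hj : ∃ q, s q = j
      · obtain ⟨q, hq⟩ := hj
        rw [Finset.sum_eq_single q]
        · have h1 : (Matrix.of fun p q => rw' A (f p) (s q)) p q = -1 := by
            simp [hp, rw', hq]
          rw [h1, abs_mul, abs_mul, abs_pow, abs_neg, abs_one, one_pow, one_mul, one_mul]
          exact ih (fun p' => f (p.succAbove p')) (fun q' => s (q.succAbove q'))
            (hs.comp Fin.succAbove_right_injective)
        · intro q' _ hne
          have h1 : (Matrix.of fun p q => rw' A (f p) (s q)) p q' = 0 := by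
            have : s q' ≠ j := fun e => hne (hs (e.trans hq.symm))
            simp [hp, rw', this]
          rw [h1, mul_zero, zero_mul]
        · intro hq'
          exact absurd (mem_univ q) hq'
      · push Not at hj
        rw [Finset.sum_eq_zero]
        · simp
        · intro q _
          have h1 : (Matrix.of fun p q => rw' A (f p) (s q)) p q = 0 := by
            simp [hp, rw', hj q]
          rw [h1, mul_zero, zero_mul]
    · push Not at hf
      have h1 : ∀ p, ∃ i, f p = Sum.inl i := by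
        intro p
        rcases h2 : f p with i | j
        · exact ⟨i, rfl⟩
        · exact absurd h2 (hf p j)
      choose r hr using h1
      have h2 : (Matrix.of fun p q => rw' A (f p) (s q)) = Matrix.of fun p q => A (r p) (s q) := by
        ext p q
        simp [hr, rw']
      rw [h2]
      exact h (k + 1) r s

/-- the square matrix of `n` rows -/
def sq (A : Fin m → Fin n → ℤ) (B : Fin n → Fin m ⊕ Fin n) : Matrix (Fin n) (Fin n) ℤ :=
  Matrix.of fun p q => rw' A (B p) q

theorem SubDet.sq {A : Fin m → Fin n → ℤ} {Δ : ℕ} (h : SubDet A Δ)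
    (B : Fin n → Fin m ⊕ Fin n) : |(sq A B).det| ≤ Δ :=
  h.ext n B id Function.injective_id

/-- the rows `B` have no common zero but `0` -/
def Ind (A : Fin m → Fin n → ℤ) (B : Fin n → Fin m ⊕ Fin n) : Prop :=
  ∀ g : Fin n → ℝ, (∀ i, rows (reM A) (B i) g = 0) → g = 0

theorem Ind.det_ne {A : Fin m → Fin n → ℤ} {B : Fin n → Fin m ⊕ Fin n} (h : Ind A B) :
    (Pool.Agent.K4H87.BS.sq A B).det ≠ 0 := by
  intro h0
  have h1 : ((Pool.Agent.K4H87.BS.sq A B).map (Int.castRingHom ℝ)).det = 0 := by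
    rw [← RingHom.mapMatrix_apply, ← RingHom.map_det, h0, map_zero]
  obtain ⟨g, hg, hg0⟩ := Matrix.exists_mulVec_eq_zero_iff.2 h1
  apply hg
  apply h
  intro i
  rw [rows_eq]
  exact congrFun hg0 i

/-- coordinates of the rows in a basis -/
theorem coord {A : Fin m → Fin n → ℤ} {Δ : ℕ} (h : SubDet A Δ) (B : Fin n → Fin m ⊕ Fin n)
    (j : Fin m ⊕ Fin n) : ∃ C : Fin n → ℤ, (∀ i, |C i| ≤ Δ) ∧
      ∀ e : Fin n → ℝ, ((Pool.Agent.K4H87.BS.sq A B).det : ℝ) * rows (reM A) j e =
        ∑ i, (C i : ℝ) * rows (reM A) (B i) e := by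
  classical
  refine ⟨fun i => (Matrix.cramer (Pool.Agent.K4H87.BS.sq A B)ᵀ (rw' A j)) i, fun i => ?_,
    fun e => ?_⟩
  · simp only
    rw [Matrix.cramer_transpose_apply]
    have h1 : (Pool.Agent.K4H87.BS.sq A B).updateRow i (rw' A j) =
        Pool.Agent.K4H87.BS.sq A (Function.update B i j) := by
      ext p q
      by_cases hp : p = i
      · subst hp
        simp [Pool.Agent.K4H87.BS.sq]
      · simp [Pool.Agent.K4H87.BS.sq, hp]
    rw [h1]
    exact h.sq _
  · have h1 := Matrix.mulVec_cramer (Pool.Agent.K4H87.BS.sq A B)ᵀ (rw' A j)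
    rw [Matrix.det_transpose] at h1
    simp only [rows_eq, mul_sum]
    rw [sum_comm]
    refine sum_congr rfl fun q _ => ?_
    have h2 := congrFun h1 q
    simp only [Matrix.mulVec, dotProduct, Matrix.transpose_apply, Pi.smul_apply,
      smul_eq_mul] at h2
    have h3 : (∑ i, (rw' A (B i) q : ℝ) *
        ((Matrix.cramer (Pool.Agent.K4H87.BS.sq A B)ᵀ (rw' A j)) i : ℝ)) =
        ((Pool.Agent.K4H87.BS.sq A B).det : ℝ) * (rw' A j q : ℝ) := by
      exact_mod_cast h2
    rw [← mul_assoc, ← h3, sum_mul]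
    refine sum_congr rfl fun i _ => ?_
    ring

/-- choice of a row basis -/
theorem pick {A : Fin m → Fin n → ℤ} {T : Set (Fin m ⊕ Fin n)}
    (hT : ∀ g, (∀ i ∈ T, rows (reM A) i g = 0) → g = 0) :
    ∃ B : Fin n → Fin m ⊕ Fin n, (∀ p, B p ∈ T) ∧ Ind A B ∧ Function.Injective B := by
  classical
  set v : Fin m ⊕ Fin n → Fin n → ℝ := fun i q => (rw' A i q : ℝ) with hv
  have htop : Submodule.span ℝ (v '' T) = ⊤ := by
    by_contra hne
    obtain ⟨f, hf0, hf⟩ := Submodule.exists_le_ker_of_lt_top _ (lt_top_iff_ne_top.2 hne)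
    apply hf0
    have hg : (fun q => f (Pi.single q 1)) = 0 := by
      apply hT
      intro i hi
      have h1 : v i ∈ LinearMap.ker f := hf (Submodule.subset_span ⟨i, hi, rfl⟩)
      rw [LinearMap.mem_ker] at h1
      rw [rows_eq]
      have h2 : v i = ∑ q, v i q • (Pi.single q 1 : Fin n → ℝ) := by
        ext p
        simp [Finset.sum_apply, Pi.single_apply]
      rw [h2, map_sum] at h1
      simpa [hv] using h1
    apply LinearMap.pi_ext'
    intro q
    ext
    simpa using congrFun hg q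
  obtain ⟨f, hf1, hf2, hf3⟩ := Submodule.exists_fun_fin_finrank_span_eq ℝ (v '' T)
  have hrank : Module.finrank ℝ (Submodule.span ℝ (v '' T)) = n := by
    rw [htop, finrank_top]
    simp
  let e : Fin n ≃ Fin (Module.finrank ℝ (Submodule.span ℝ (v '' T))) := finCongr hrank.symm
  have hch : ∀ p, ∃ i ∈ T, v i = f (e p) := fun p => hf1 (e p)
  choose B hB1 hB2 using hch
  refine ⟨B, hB1, fun g hg => ?_, fun p p' h => ?_⟩
  · have h1 : ∀ x ∈ Submodule.span ℝ (Set.range f), ∑ q, x q * g q = 0 := by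
      intro x hx
      induction hx using Submodule.span_induction with
      | mem x hx =>
        obtain ⟨p, rfl⟩ := hx
        have h2 := hg (e.symm p)
        rw [rows_eq] at h2
        have h3 := hB2 (e.symm p)
        rw [Equiv.apply_symm_apply] at h3
        rw [← h3]
        exact h2
      | zero => simp
      | add x y _ _ hx hy => simp only [Pi.add_apply, add_mul, sum_add_distrib, hx, hy, add_zero]
      | smul r x _ hx => simp only [Pi.smul_apply, smul_eq_mul, mul_assoc, ← mul_sum, hx, mul_zero]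
    rw [hf2, htop] at h1
    funext q
    have h4 := h1 (Pi.single q 1) trivial
    simpa [Pi.single_apply] using h4
  · have h1 : f (e p) = f (e p') := by rw [← hB2, ← hB2, h]
    exact e.injective (hf3.injective h1)

/-- edge directions are multiples of integral vectors with small products with the rows -/
theorem integral {A : Fin m → Fin n → ℤ} {Δ : ℕ} (h : SubDet A Δ) {T : Finset (Fin m ⊕ Fin n)}
    {e : Fin n → ℝ} (he : Dir (rows (reM A)) T e) :
    ∃ σ : ℝ, 0 < σ ∧ ∀ i, ∃ z : ℤ, rows (reM A) i (σ • e) = z ∧ |z| ≤ Δ := by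
  classical
  obtain ⟨j0, hj0, hneg⟩ := he.exists_neg
  obtain ⟨B, hB1, hB2, hB3⟩ := pick (A := A)
    (T := {i | i ∈ T ∧ rows (reM A) i e = 0} ∪ {j0}) (by
    intro g hg
    obtain ⟨t, rfl⟩ := he.2.2 g (fun i hi h0 => hg i (Or.inl ⟨hi, h0⟩))
    have h1 := hg j0 (Or.inr rfl)
    rw [map_smul, smul_eq_mul] at h1
    rcases mul_eq_zero.1 h1 with h2 | h2
    · rw [h2, zero_smul]
    · exact absurd h2 hneg.ne)
  have hex : ∃ p, rows (reM A) (B p) e ≠ 0 := by
    by_contra hcon
    push Not at hcon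
    exact he.ne_zero (hB2 e hcon)
  obtain ⟨p0, hp0⟩ := hex
  have hBp0 : B p0 = j0 := by
    rcases hB1 p0 with h1 | h1
    · exact absurd h1.2 hp0
    · exact h1
  have hz : ∀ p, p ≠ p0 → rows (reM A) (B p) e = 0 := by
    intro p hp
    rcases hB1 p with h1 | h1
    · exact h1.2
    · exact absurd (hB3 ((Set.mem_singleton_iff.1 h1).trans hBp0.symm)) hp
  set D : ℤ := (Pool.Agent.K4H87.BS.sq A B).det with hD
  have hD0 : D ≠ 0 := hB2.det_ne
  have hDr : (D : ℝ) ≠ 0 := by exact_mod_cast hD0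
  have hDa : (0 : ℝ) < |(D : ℝ)| := abs_pos.2 hDr
  refine ⟨|(D : ℝ)| / (-rows (reM A) j0 e), div_pos hDa (by linarith), fun i => ?_⟩
  obtain ⟨C, hC1, hC2⟩ := coord h B i
  have h1 := hC2 e
  rw [Finset.sum_eq_single p0 (fun p _ hp => by rw [hz p hp, mul_zero])
    (fun hh => absurd (mem_univ _) hh), hBp0, ← hD] at h1
  refine ⟨-(C p0 * D.sign), ?_, ?_⟩
  · rw [map_smul, smul_eq_mul]
    have h2 : (D : ℝ) * (D.sign : ℝ) = |(D : ℝ)| := by
      have := Int.mul_sign_self D
      have h3 : ((D * D.sign : ℤ) : ℝ) = ((D.natAbs : ℤ) : ℝ) := by rw [this]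
      push_cast at h3
      rw [h3]
    have h4 : rows (reM A) i e = (C p0 : ℝ) * rows (reM A) j0 e / D := by
      rw [eq_div_iff hDr]
      linarith
    rw [h4, ← h2]
    push_cast
    have h5 : rows (reM A) j0 e ≠ 0 := hneg.ne
    field_simp
  · rw [abs_neg, abs_mul]
    have h2 : |D.sign| = 1 := by
      rw [Int.abs_sign_of_ne_zero hD0]
    rw [h2, mul_one]
    exact hC1 p0

end Pool.Agent.K4H87.BS
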