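import Pool.Agent.K4H87.BS.Count

/-! The shadow vertex path for a random auxiliary objective: tail bound for its length. -/

set_option autoImplicit false

namespace Pool.Agent.K4H87.BS

open MeasureTheory Finset Pool.Agent.K4H92.LP

variable {n : ℕ} {E : Type*} [AddCommGroup E] [Module ℝ E] {I : Type*} [Fintype I]
  {a : I → E →ₗ[ℝ] ℝ} {β : I → ℝ} {c : E →ₗ[ℝ] ℝ} {B : Fin n → I} {κ R : ℝ}
  {nrm : E → ℝ} {lvl : E → ℕ}

theorem Dat.tail (H : Dat a c B κ R nrm lvl) {ℓ : ℕ} (hℓ : 2 * n * κ * R ≤ 2 ^ ℓ) (T : ℕ)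
    (Bad : Set (Fin n → ℝ))
    (hB : ∀ l ∈ Bad, l ∈ cube n ∧ ∃ (N : ℕ) (x : ℕ → E) (t : ℕ → ℝ), T < N ∧
      (∀ k ≤ N, 0 ≤ t k ∧ At a β c B l (t k) (x k)) ∧
      (∀ k k', k < k' → k' ≤ N → x k ≠ x k') ∧
      (∀ k < N, ∃ e, Dir a (tight a β (x k)) e ∧ 0 < c e)) :
    volume Bad ≤ ENNReal.ofReal (16 * (n ^ 3 * κ * (1 + 2 * n * κ * ℓ))) /
      (T + 1 : ℕ) := by
  classical
  obtain ⟨X, hX, hX'⟩ := H.exists_X
  set f : ℕ → (Fin n → ℝ) → ENNReal := fun M l => ∑ p ∈ range n ×ˢ range (M + M * ℓ),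
      (Ev a β c B (fun _ => True) (DD a c lvl p.1) (cell (X p.1) M p.2)
      (fun e => cell (X p.1) M (p.2 + 1) * c e)).indicator (fun _ => (1 : ENNReal)) l with hf
  have hfm : ∀ M, Measurable (f M) := fun M =>
    Finset.measurable_fun_sum _ fun p _ => measurable_const.indicator (measurable_Ev _ _ _ _)
  set U : ℕ → Set (Fin n → ℝ) := fun M => {l | ((T + 1 : ℕ) : ENNReal) ≤ f M l} with hU
  set V : ℕ → Set (Fin n → ℝ) := fun M₀ => ⋂ M ∈ {M | M₀ ≤ M ∧ 0 < M}, U M with hV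
  have hVm : Monotone V := by
    intro M₀ M₁ h l hl
    simp only [hV, Set.mem_iInter, Set.mem_setOf_eq] at hl ⊢
    exact fun M hM => hl M ⟨h.trans hM.1, hM.2⟩
  have hsub : Bad ⊆ ⋃ M₀, V M₀ := by
    intro l hl
    obtain ⟨hlc, N, x, t, hN, h0, hinj, hdir⟩ := hB l hl
    obtain ⟨M₀, hM₀⟩ := H.steps_le hX hX' hℓ hlc h0 hinj hdir
    rw [Set.mem_iUnion]
    refine ⟨M₀, ?_⟩
    simp only [hV, Set.mem_iInter, Set.mem_setOf_eq]
    intro M hM
    refine le_trans ?_ (hM₀ M hM.1 hM.2)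
    exact_mod_cast hN
  have hUv : ∀ M, 0 < M → volume (U M) ≤
      ENNReal.ofReal (16 * (n ^ 3 * κ * (1 + 2 * n * κ * ℓ))) / (T + 1 : ℕ) := by
    intro M hM
    rw [ENNReal.le_div_iff_mul_le (Or.inl (by simp)) (Or.inl (by simp)), mul_comm]
    exact (mul_meas_ge_le_lintegral (hfm M) _).trans (H.expected hX hX' β hM ℓ)
  calc volume Bad ≤ volume (⋃ M₀, V M₀) := measure_mono hsub
    _ = ⨆ M₀, volume (V M₀) := hVm.measure_iUnion
    _ ≤ _ := by
        refine iSup_le fun M₀ => ?_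
        refine le_trans (measure_mono ?_) (hUv (M₀ + 1) (Nat.succ_pos _))
        intro l hl
        simp only [hV, Set.mem_iInter, Set.mem_setOf_eq] at hl
        exact hl (M₀ + 1) ⟨Nat.le_succ _, Nat.succ_pos _⟩

/-- the auxiliary objective is generic almost surely -/
theorem gen_ae (β : I → ℝ) (c : E →ₗ[ℝ] ℝ) (hBs : ∀ g, (∀ i, a (B i) g = 0) → g = 0) :
    ∃ Z : Set (Fin n → ℝ), volume Z = 0 ∧ ∀ l, l ∉ Z → Gen a β (dl a B l) c := by
  classical
  set F : Finset E := (Finset.univ : Finset (Finset I)).biUnion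
    (fun T => (dir_finite a T).toFinset) with hF
  have memF : ∀ T e, Dir a T e → e ∈ F := fun T e he => by
    rw [hF, mem_biUnion]
    exact ⟨T, mem_univ _, by rw [Set.Finite.mem_toFinset]; exact he⟩
  set L : Finset E := (F ∪ (F ×ˢ F).image fun π => (c π.2) • π.1 - (c π.1) • π.2).erase 0 with hL
  refine ⟨⋃ w ∈ L, {l | dl a B l w = 0}, ?_, ?_⟩
  · refine (measure_biUnion_null_iff (I := (↑L : Set E)) L.countable_toSet).2 ?_
    intro w hw
    have hw0 : w ≠ 0 := ne_of_mem_erase hw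
    set φ : (Fin n → ℝ) →ₗ[ℝ] ℝ := ∑ i, a (B i) w • LinearMap.proj i with hφ
    have hφa : ∀ l, φ l = dl a B l w := fun l => by
      rw [hφ, dl_apply]
      simp [LinearMap.sum_apply, mul_comm]
    have hset : {l | dl a B l w = 0} = (LinearMap.ker φ : Set (Fin n → ℝ)) := by
      ext l
      simp [hφa]
    rw [hset]
    apply Measure.addHaar_submodule
    intro htop
    apply hw0
    apply hBs
    intro i
    have h1 : (Pi.single i 1 : Fin n → ℝ) ∈ LinearMap.ker φ := by rw [htop]; trivial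
    rw [LinearMap.mem_ker, hφa, dl_apply] at h1
    simpa [Pi.single_apply] using h1
  · intro l hl
    have hdne : ∀ w ∈ L, dl a B l w ≠ 0 := by
      intro w hw h0
      apply hl
      simp only [Set.mem_iUnion]
      exact ⟨w, hw, h0⟩
    intro u _ e e' he he' hne θ h0 h1 hz hz'
    set d := dl a B l with hd
    have hd1 : d e ≠ 0 := hdne e (mem_erase.2 ⟨he.ne_zero, mem_union_left _ (memF _ _ he)⟩)
    rw [mix_apply] at hz hz'
    have hd2 : d ((c e') • e - (c e) • e') = 0 := by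
      rw [map_sub, map_smul, map_smul, smul_eq_mul, smul_eq_mul]
      have h2 : (1 - θ) * (c e' * d e - c e * d e') = 0 := by
        calc (1 - θ) * (c e' * d e - c e * d e')
            = c e' * ((1 - θ) * d e + θ * c e) - c e * ((1 - θ) * d e' + θ * c e') := by ring
          _ = 0 := by rw [hz, hz']; ring
      rcases mul_eq_zero.1 h2 with h3 | h3
      · linarith
      · exact h3
    have hw0 : (c e') • e - (c e) • e' = 0 := by
      by_contra hw0
      refine hdne _ (mem_erase.2 ⟨hw0, mem_union_right _ (mem_image.2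
        ⟨(e, e'), mem_product.2 ⟨memF _ _ he, memF _ _ he'⟩, rfl⟩)⟩) hd2
    have h3 := congrArg (lin a (tight a β u)) hw0
    rw [map_sub, map_smul, map_smul, he.2.1, he'.2.1, map_zero, smul_eq_mul, smul_eq_mul, mul_one,
      mul_one] at h3
    have h4 : c e' = c e := by linarith
    have hce : c e ≠ 0 := by
      intro h5
      rw [h5, mul_zero, add_zero] at hz
      rcases mul_eq_zero.1 hz with h6 | h6
      · linarith
      · exact hd1 h6
    rw [h4, ← smul_sub] at hw0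
    rcases smul_eq_zero.1 hw0 with h5 | h5
    · exact hce h5
    · exact hne (sub_eq_zero.1 h5)

variable (a β c B)

/-- a shadow vertex path with `N` steps -/
def SPath (l : Fin n → ℝ) (v : E) (N : ℕ) : Prop :=
  ∃ (x : ℕ → E) (t : ℕ → ℝ), x 0 = v ∧ t 0 = 0 ∧
    (∀ k ≤ N, 0 ≤ t k ∧ At a β c B l (t k) (x k)) ∧
    (∀ k < N, Step a β c (x k) (x (k + 1)) ∧ t k < t (k + 1)) ∧
    ((∀ e, Dir a (tight a β (x N)) e → c e ≤ 0) ∨
      ∃ e, Dir a (tight a β (x N)) e ∧ 0 < c e ∧ ∀ t : ℝ, 0 ≤ t → x N + t • e ∈ PP a β)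

variable {a β c B}

theorem exists_SPath {v : E} (hv : Vert a β v) (hBt : ∀ i, B i ∈ tight a β v)
    (hBs : ∀ g, (∀ i, a (B i) g = 0) → g = 0) {l : Fin n → ℝ} (hl : ∀ i, 0 < l i)
    (hg : Gen a β (dl a B l) c) : ∃ N, SPath a β c B l v N := by
  classical
  have hneg : ∀ e, Dir a (tight a β v) e → dl a B l e < 0 := by
    intro e he
    rw [dl_apply]
    have hex : ∃ i, a (B i) e ≠ 0 := by
      by_contra hcon
      push Not at hcon
      exact he.ne_zero (hBs e hcon)
    obtain ⟨i, hi⟩ := hex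
    have h1 : ∀ j, l j * a (B j) e ≤ 0 := fun j =>
      mul_nonpos_of_nonneg_of_nonpos (hl j).le (he.1 _ (hBt j))
    have h2 : l i * a (B i) e < 0 :=
      mul_neg_of_pos_of_neg (hl i) (lt_of_le_of_ne (he.1 _ (hBt i)) hi)
    exact sum_neg' (fun j _ => h1 j) ⟨i, mem_univ i, h2⟩
  have hfin : {w : E | Vert a β w}.Finite := by
    have hinj : Set.InjOn (fun w : E => tight a β w) {w | Vert a β w} := by
      intro w hw w' hw' h
      have := hw.2 (w - w') (fun i hi => by
        have h1 := mem_tight.1 hi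
        simp only at h
        rw [h] at hi
        have h2 := mem_tight.1 hi
        rw [map_sub, h1, h2, sub_self])
      exact sub_eq_zero.1 this
    exact Set.Finite.of_finite_image (Set.toFinite _) hinj
  have hstart : Sh a β (dl a B l) c v 0 := by
    refine ⟨hv, le_rfl, one_pos, fun e he => ?_⟩
    rw [mix_apply, sub_zero, one_mul, zero_mul, add_zero]
    exact hneg e he
  obtain ⟨N, x, θ, -, h2, h3, h4, h5, h6⟩ := path hg (S := hfin.toFinset)
    (fun w θ hw => by rw [Set.Finite.mem_toFinset]; exact hw.1) v 0 hstart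
  refine ⟨N, x, fun k => θ k / (1 - θ k), h2, by simp [h3], fun k hk => ?_, fun k hk => ?_, h6⟩
  · obtain ⟨g1, g2, g3, g4⟩ := h4 k hk
    have h7 : 0 < 1 - θ k := by linarith
    refine ⟨by positivity, g1, fun e he => ?_⟩
    have h8 := g4 e he
    rw [mix_apply] at h8
    have h9 : dl a B l e + θ k / (1 - θ k) * c e =
        ((1 - θ k) * dl a B l e + θ k * c e) / (1 - θ k) := by
      field_simp
    rw [h9]
    exact div_neg_of_neg_of_pos h8 h7
  · refine ⟨(h5 k hk).1, ?_⟩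
    have h7 := (h5 k hk).2
    have h8 := (h4 k hk.le).2.2.1
    have h9 := (h4 (k + 1) hk).2.2.1
    simp only
    rw [div_lt_div_iff₀ (by linarith) (by linarith)]
    nlinarith

/-- **Tail bound.** -/
theorem Dat.main (H : Dat a c B κ R nrm lvl) {ℓ : ℕ} (hℓ : 2 * n * κ * R ≤ 2 ^ ℓ) (T : ℕ)
    {v : E} (hv : Vert a β v) (hBt : ∀ i, B i ∈ tight a β v)
    (hBs : ∀ g, (∀ i, a (B i) g = 0) → g = 0) :
    volume {l | l ∈ cube n ∧ ¬ ∃ N ≤ T, SPath a β c B l v N} ≤
      ENNReal.ofReal (16 * (n ^ 3 * κ * (1 + 2 * n * κ * ℓ))) /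
      (T + 1 : ℕ) := by
  obtain ⟨Z, hZ, hZ'⟩ := gen_ae β c hBs
  have h1 := H.tail hℓ T ({l | l ∈ cube n ∧ ¬ ∃ N ≤ T, SPath a β c B l v N} \ Z) (by
    rintro l ⟨⟨hl, hn⟩, hlZ⟩
    refine ⟨hl, ?_⟩
    obtain ⟨N, x, t, g1, g2, g3, g4, g5⟩ := exists_SPath hv hBt hBs
      (fun i => by linarith [(mem_cube.1 hl i).1]) (hZ' l hlZ)
    refine ⟨N, x, t, ?_, g3, ?_, ?_⟩
    · by_contra hT
      exact hn ⟨N, by omega, x, t, g1, g2, g3, g4, g5⟩
    · -- values increase
      have hlt : ∀ k k', k < k' → k' ≤ N → c (x k) < c (x k') := by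
        intro k k' hk
        induction k' with
        | zero => omega
        | succ k' ih =>
          intro hN
          have h2 := (g4 k' (by omega)).1.lt
          rcases (Nat.lt_succ_iff_lt_or_eq.1 hk) with h3 | h3
          · exact (ih h3 (by omega)).trans h2
          · rw [h3]; exact h2
      intro k k' hk hk' he
      have := hlt k k' hk hk'
      rw [he] at this
      exact lt_irrefl _ this
    · intro k hk
      obtain ⟨_, _, e, s, he, hce, _⟩ := (g4 k hk).1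
      exact ⟨e, he, hce⟩)
  refine le_trans ?_ h1
  calc volume {l | l ∈ cube n ∧ ¬ ∃ N ≤ T, SPath a β c B l v N}
      ≤ volume (({l | l ∈ cube n ∧ ¬ ∃ N ≤ T, SPath a β c B l v N} \ Z) ∪ Z) := by
        apply measure_mono
        intro l hl
        by_cases h : l ∈ Z
        · exact Or.inr h
        · exact Or.inl ⟨hl, h⟩
    _ ≤ volume ({l | l ∈ cube n ∧ ¬ ∃ N ≤ T, SPath a β c B l v N} \ Z) + volume Z :=
        measure_union_le _ _
    _ = _ := by rw [hZ, add_zero]

end Pool.Agent.K4H87.BS
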