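import Pool.Agent.K4H87.BS.Tail
set_option autoImplicit false

/-!
# Shadow paths do not skip a shadow vertex

The path of the shadow vertex rule, with the critical values: for a value `θs` between the parameters of
two consecutive vertices both vertices are optimal.
-/

namespace Pool.Agent.K4H92.LP

open Finset

variable {E : Type*} [AddCommGroup E] [Module ℝ E] {I : Type*} [Fintype I]
  {a : I → E →ₗ[ℝ] ℝ} {β : I → ℝ}

/-- both `v` and `w` are optimal for some objective between the parameters `θ` and `θ'` -/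
def Tie (a : I → E →ₗ[ℝ] ℝ) (β : I → ℝ) (d c : E →ₗ[ℝ] ℝ) (v w : E) (θ θ' : ℝ) : Prop :=
  ∃ θs, θ < θs ∧ θs < θ' ∧ (∀ x ∈ PP a β, mix d c θs x ≤ mix d c θs v) ∧
    mix d c θs w = mix d c θs v

theorem next_tie {d c : E →ₗ[ℝ] ℝ} (hg : Gen a β d c) {v : E} {θ₀ : ℝ} (hv : Sh a β d c v θ₀) :
    (∀ e, Dir a (tight a β v) e → c e ≤ 0) ∨
      ∃ e, Dir a (tight a β v) e ∧ 0 < c e ∧ ((∀ t : ℝ, 0 ≤ t → v + t • e ∈ PP a β) ∨
        ∃ (t θs θ : ℝ), 0 < t ∧ (∀ s : ℝ, v + s • e ∈ PP a β → s ≤ t) ∧ θ₀ < θs ∧ θs < θ ∧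
          (∀ x ∈ PP a β, mix d c θs x ≤ mix d c θs v) ∧
          mix d c θs (v + t • e) = mix d c θs v ∧ Sh a β d c (v + t • e) θ) := by
  classical
  obtain ⟨hv, h0, h1, hlt⟩ := hv
  by_cases hc : ∀ e, Dir a (tight a β v) e → c e ≤ 0
  · exact Or.inl hc
  right
  push Not at hc
  obtain ⟨e0, he0, hce0⟩ := hc
  set F : Finset E := (dir_finite a (tight a β v)).toFinset with hF
  have memF : ∀ e, e ∈ F ↔ Dir a (tight a β v) e := fun e => by
    rw [hF, Set.Finite.mem_toFinset]; rfl
  -- the root of the direction `e`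
  have hne : (F.filter fun e => 0 < c e).Nonempty :=
    ⟨e0, mem_filter.2 ⟨(memF _).2 he0, hce0⟩⟩
  obtain ⟨e, he, hmin⟩ := exists_min_image _ (fun e => d e / (d e - c e)) hne
  obtain ⟨heF, hce⟩ := mem_filter.1 he
  have hde := (memF e).1 heF
  -- sign facts
  have hd_neg : ∀ e', Dir a (tight a β v) e' → 0 < c e' → d e' < 0 := by
    intro e' he' hce'
    have := hlt e' he'
    rw [mix_apply] at this
    by_contra hcon
    push Not at hcon
    have t1 := mul_nonneg (sub_nonneg.2 h1.le) hcon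
    have t2 := mul_nonneg h0 hce'.le
    linarith
  have root : ∀ e', Dir a (tight a β v) e' → 0 < c e' → ∀ θ : ℝ,
      mix d c θ e' = (d e' - c e') * (d e' / (d e' - c e') - θ) := by
    intro e' he' hce' θ
    have h2 : d e' - c e' ≠ 0 := by have := hd_neg e' he' hce'; linarith
    rw [mix_apply, mul_sub, mul_div_cancel₀ _ h2]
    ring
  set θs := d e / (d e - c e) with hθs
  have hdc : d e - c e < 0 := by have := hd_neg e hde hce; linarith
  have hθ0 : θ₀ < θs := by
    have h2 := hlt e hde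
    rw [root e hde hce, ← hθs] at h2
    by_contra hcon
    push Not at hcon
    have := mul_nonneg_of_nonpos_of_nonpos hdc.le (by linarith : θs - θ₀ ≤ 0)
    linarith
  have hθ1 : θs < 1 := by
    rw [hθs, div_lt_one_of_neg hdc]
    linarith
  have hmix : mix d c θs e = 0 := by rw [root e hde hce, ← hθs]; ring
  have hθs0 : 0 ≤ θs := h0.trans hθ0.le
  have hothers : ∀ e', Dir a (tight a β v) e' → e' = e ∨ mix d c θs e' < 0 := by
    intro e' he'
    by_cases hee : e' = e
    · exact Or.inl hee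
    right
    have hne0 : mix d c θs e' ≠ 0 := hg v hv e e' hde he' (Ne.symm hee) θs hθs0 hθ1 hmix
    refine lt_of_le_of_ne ?_ hne0
    by_cases hce' : 0 < c e'
    · have h2 := hmin e' (mem_filter.2 ⟨(memF _).2 he', hce'⟩)
      have h3 : d e' - c e' < 0 := by have := hd_neg e' he' hce'; linarith
      rw [root e' he' hce']
      exact mul_nonpos_of_nonpos_of_nonneg h3.le (sub_nonneg.2 h2)
    · push Not at hce'
      have h2 := hlt e' he'
      rw [mix_apply] at h2 ⊢
      -- convex combination of the values at `θ₀` and `1`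
      have h3 : (1 - θs) * d e' + θs * c e' =
          (1 - θs) / (1 - θ₀) * ((1 - θ₀) * d e' + θ₀ * c e') +
            (θs - θ₀) / (1 - θ₀) * c e' := by
        have : (1 - θ₀) ≠ 0 := by linarith
        field_simp
        ring
      rw [h3]
      have h4 : 0 ≤ (1 - θs) / (1 - θ₀) := div_nonneg (by linarith) (by linarith)
      have h5 : 0 ≤ (θs - θ₀) / (1 - θ₀) := div_nonneg (by linarith) (by linarith)
      have := mul_nonpos_of_nonneg_of_nonpos h4 h2.le
      have := mul_nonpos_of_nonneg_of_nonpos h5 hce'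
      linarith
  have hmax : ∀ x ∈ PP a β, mix d c θs x ≤ mix d c θs v := fun x hx =>
    vert_le hv (fun e' he' => by
      rcases hothers e' he' with rfl | h
      · exact hmix.le
      · exact h.le) hx
  refine ⟨e, hde, hce, ?_⟩
  rcases step_end hv hde with hu | ⟨t, ht, hvt, hmaxt⟩
  · exact Or.inl hu
  right
  set w := v + t • e with hw
  have hfw : mix d c θs w = mix d c θs v := by
    rw [hw, map_add, map_smul, hmix]; simp
  set F' : Finset E := (dir_finite a (tight a β w)).toFinset with hF'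
  have memF' : ∀ e, e ∈ F' ↔ Dir a (tight a β w) e := fun e => by
    rw [hF', Set.Finite.mem_toFinset]; rfl
  -- every direction at the new vertex
  have hdir : ∀ e', Dir a (tight a β w) e' → mix d c θs e' < 0 ∨
      (mix d c θs e' = 0 ∧ c e' - d e' < 0) := by
    intro e' he'
    have h2 : mix d c θs e' ≤ 0 := dir_le_of_max (a := a) (β := β) hvt.1
      (fun x hx => by rw [hfw]; exact hmax x hx) he'.1
    rcases h2.lt_or_eq with h3 | h3
    · exact Or.inl h3
    right
    refine ⟨h3, ?_⟩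
    obtain ⟨r, hr, hrP⟩ := small_step hvt.1 he'.1
    have h4 : mix d c θs (w + r • e' - v) = 0 := by
      rw [map_sub, map_add, map_smul, h3, hfw]; simp
    obtain ⟨s, hs, hse⟩ := cone_face hv.2 (f := mix d c θs) (e₀ := e) hothers hmix.le
      (h := w + r • e' - v) (fun i hi => tight_sub hrP hi) h4
    have h5 : v + s • e ∈ PP a β := by
      rw [← hse]
      have : v + (w + r • e' - v) = w + r • e' := by abel
      rw [this]; exact hrP
    have h6 := hmaxt s h5
    have h7 : r • e' = (s - t) • e := by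
      have : r • e' = (w + r • e' - v) - (w - v) := by abel
      rw [this, hse, hw]
      module
    have h8 : e' = ((s - t) / r) • e := by
      rw [div_eq_inv_mul, mul_smul, ← h7, smul_smul, inv_mul_cancel₀ hr.ne', one_smul]
    have h9 : s - t ≠ 0 := by
      intro h0'
      rw [h0', zero_div, zero_smul] at h8
      exact he'.ne_zero h8
    have h10 : (s - t) / r < 0 := div_neg_of_neg_of_pos (lt_of_le_of_ne (by linarith) h9) hr
    rw [h8, map_smul, map_smul, smul_eq_mul, smul_eq_mul, ← mul_sub]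
    exact mul_neg_of_neg_of_pos h10 (by linarith)
  obtain ⟨δ, hδ, hδ'⟩ := exists_small (F'.filter fun e' => mix d c θs e' < 0)
    (fun e' => -mix d c θs e') (fun e' => c e' - d e') (fun e' he' => by
      have := (mem_filter.1 he').2
      linarith)
  set η := min δ ((1 - θs) / 2) with hη
  have hη0 : 0 < η := lt_min hδ (by linarith)
  refine ⟨t, θs, θs + η, ht, hmaxt, hθ0, by linarith, hmax, hfw, hvt, by linarith, ?_, ?_⟩
  · have : η ≤ (1 - θs) / 2 := min_le_right _ _
    linarith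
  · intro e' he'
    have e1 : mix d c (θs + η) e' = mix d c θs e' + η * (c e' - d e') := by
      rw [mix_apply, mix_apply]; ring
    rw [e1]
    rcases hdir e' he' with h | ⟨h, h'⟩
    · have h2 := hδ' e' (mem_filter.2 ⟨(memF' _).2 he', h⟩)
      rcases le_or_gt (c e' - d e') 0 with h3 | h3
      · have := mul_nonpos_of_nonneg_of_nonpos hη0.le h3
        linarith
      · have : η * (c e' - d e') ≤ δ * (c e' - d e') :=
          mul_le_mul_of_nonneg_right (min_le_left _ _) h3.le
        linarith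
    · rw [h, zero_add]
      exact mul_neg_of_pos_of_neg hη0 h'

/-- the path of the shadow vertex rule -/
theorem path_tie {d c : E →ₗ[ℝ] ℝ} (hg : Gen a β d c) {S : Finset E}
    (hS : ∀ w θ, Sh a β d c w θ → w ∈ S) (v : E) (θ₀ : ℝ) (hv : Sh a β d c v θ₀) :
    ∃ (N : ℕ) (x : ℕ → E) (θ : ℕ → ℝ), N < S.card ∧ x 0 = v ∧ θ 0 = θ₀ ∧
      (∀ k ≤ N, Sh a β d c (x k) (θ k)) ∧
      (∀ k < N, Step a β c (x k) (x (k + 1)) ∧
          Tie a β d c (x k) (x (k + 1)) (θ k) (θ (k + 1))) ∧
      ((∀ e, Dir a (tight a β (x N)) e → c e ≤ 0) ∨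
        ∃ e, Dir a (tight a β (x N)) e ∧ 0 < c e ∧ ∀ t : ℝ, 0 ≤ t → x N + t • e ∈ PP a β) := by
  classical
  -- the stronger bound
  suffices h : ∀ (M : ℕ) (v : E) (θ₀ : ℝ), Sh a β d c v θ₀ →
      (S.filter fun w => c v < c w).card ≤ M →
      ∃ (N : ℕ) (x : ℕ → E) (θ : ℕ → ℝ), N ≤ M ∧ x 0 = v ∧ θ 0 = θ₀ ∧
        (∀ k ≤ N, Sh a β d c (x k) (θ k)) ∧
        (∀ k < N, Step a β c (x k) (x (k + 1)) ∧
          Tie a β d c (x k) (x (k + 1)) (θ k) (θ (k + 1))) ∧
        ((∀ e, Dir a (tight a β (x N)) e → c e ≤ 0) ∨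
          ∃ e, Dir a (tight a β (x N)) e ∧ 0 < c e ∧ ∀ t : ℝ, 0 ≤ t → x N + t • e ∈ PP a β) by
    obtain ⟨N, x, θ, h1, h2⟩ := h _ v θ₀ hv le_rfl
    refine ⟨N, x, θ, lt_of_le_of_lt h1 ?_, h2⟩
    apply card_lt_card
    refine ⟨filter_subset _ _, fun hsub => ?_⟩
    exact lt_irrefl _ (mem_filter.1 (hsub (hS v θ₀ hv))).2
  intro M
  induction M with
  | zero =>
    intro v θ₀ hv hc
    rcases next_tie hg hv with h | ⟨e, he, hce, h | ⟨t, θs, θ, ht, hmax, hθs, hθ, hm1, hm2, hsh⟩⟩
    · refine ⟨0, fun _ => v, fun _ => θ₀, le_rfl, rfl, rfl, fun k _ => hv, fun k hk => ?_, Or.inl h⟩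
      omega
    · refine ⟨0, fun _ => v, fun _ => θ₀, le_rfl, rfl, rfl, fun k _ => hv, fun k hk => ?_,
        Or.inr ⟨e, he, hce, h⟩⟩
      omega
    · exfalso
      have h1 := card_eq_zero.1 (Nat.le_zero.1 hc)
      have h2 : v + t • e ∈ S.filter fun w => c v < c w := by
        refine mem_filter.2 ⟨hS _ _ hsh, ?_⟩
        rw [map_add, map_smul, smul_eq_mul]
        have := mul_pos ht hce
        linarith
      rw [h1] at h2
      exact absurd h2 (notMem_empty _)
  | succ M ih =>
    intro v θ₀ hv hc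
    rcases next_tie hg hv with h | ⟨e, he, hce, h | ⟨t, θs, θ, ht, hmax, hθs, hθ, hm1, hm2, hsh⟩⟩
    · refine ⟨0, fun _ => v, fun _ => θ₀, Nat.zero_le _, rfl, rfl, fun k _ => hv,
        fun k hk => ?_, Or.inl h⟩
      omega
    · refine ⟨0, fun _ => v, fun _ => θ₀, Nat.zero_le _, rfl, rfl, fun k _ => hv,
        fun k hk => ?_, Or.inr ⟨e, he, hce, h⟩⟩
      omega
    · have hlt : c v < c (v + t • e) := by
        rw [map_add, map_smul, smul_eq_mul]
        have := mul_pos ht hce
        linarith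
      have hcard : (S.filter fun w => c (v + t • e) < c w).card ≤ M := by
        have : (S.filter fun w => c (v + t • e) < c w).card <
            (S.filter fun w => c v < c w).card := by
          apply card_lt_card
          refine ⟨fun w hw => ?_, fun hsub => ?_⟩
          · obtain ⟨h1, h2⟩ := mem_filter.1 hw
            exact mem_filter.2 ⟨h1, hlt.trans h2⟩
          · exact lt_irrefl _ (mem_filter.1 (hsub (mem_filter.2 ⟨hS _ _ hsh, hlt⟩))).2
        omega
      obtain ⟨N, x, η, h1, h2, h3, h4, h5, h6⟩ := ih _ θ hsh hcard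
      refine ⟨N + 1, fun k => Nat.casesOn k v x, fun k => Nat.casesOn k θ₀ η, by omega, rfl, rfl,
        ?_, ?_, h6⟩
      · intro k hk
        cases k with
        | zero => exact hv
        | succ k => exact h4 k (by omega)
      · intro k hk
        cases k with
        | zero =>
          change Step a β c v (x 0) ∧ Tie a β d c v (x 0) θ₀ (η 0)
          rw [h2, h3]
          exact ⟨⟨hv.1, hsh.1, e, t, he, hce, ht, rfl, hmax⟩, θs, hθs, hθ, hm1, hm2⟩
        | succ k => exact h5 k (by omega)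

end Pool.Agent.K4H92.LP

namespace Pool.Agent.K4H87.BS

open MeasureTheory Finset Pool.Agent.K4H92.LP

variable {n : ℕ} {E : Type*} [AddCommGroup E] [Module ℝ E] {I : Type*} [Fintype I]
  {a : I → E →ₗ[ℝ] ℝ} {β : I → ℝ} {c : E →ₗ[ℝ] ℝ} {B : Fin n → I} {κ R : ℝ}
  {nrm : E → ℝ} {lvl : E → ℕ}

variable (a β c B)

/-- a shadow vertex path with `N` steps; between the parameters of two consecutive vertices there is one for
which both are optimal -/
def TPath (l : Fin n → ℝ) (v : E) (N : ℕ) : Prop :=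
  ∃ (x : ℕ → E) (t : ℕ → ℝ), x 0 = v ∧ t 0 = 0 ∧
    (∀ k ≤ N, 0 ≤ t k ∧ At a β c B l (t k) (x k)) ∧
    (∀ k < N, Step a β c (x k) (x (k + 1)) ∧ ∃ s, t k < s ∧ s < t (k + 1) ∧
      (∀ y ∈ PP a β, dl a B l y + s * c y ≤ dl a B l (x k) + s * c (x k)) ∧
      dl a B l (x (k + 1)) + s * c (x (k + 1)) = dl a B l (x k) + s * c (x k)) ∧
    ((∀ e, Dir a (tight a β (x N)) e → c e ≤ 0) ∨
      ∃ e, Dir a (tight a β (x N)) e ∧ 0 < c e ∧ ∀ t : ℝ, 0 ≤ t → x N + t • e ∈ PP a β)

variable {a β c B}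

theorem exists_TPath {v : E} (hv : Vert a β v) (hBt : ∀ i, B i ∈ tight a β v)
    (hBs : ∀ g, (∀ i, a (B i) g = 0) → g = 0) {l : Fin n → ℝ} (hl : ∀ i, 0 < l i)
    (hg : Gen a β (dl a B l) c) : ∃ N, TPath a β c B l v N := by
  classical
  have hneg : ∀ e, Dir a (tight a β v) e → dl a B l e < 0 := by
    intro e he
    rw [dl_apply]
    have hex : ∃ i, a (B i) e ≠ 0 := by
      by_contra hcon
      push Not at hcon
      exact he.ne_zero (hBs e hcon)
    obtain ⟨i, hi⟩ := hex
    have h1 : ∀ j, l j * a (B j) e ≤ 0 := fun j =>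
      mul_nonpos_of_nonneg_of_nonpos (hl j).le (he.1 _ (hBt j))
    have h2 : l i * a (B i) e < 0 :=
      mul_neg_of_pos_of_neg (hl i) (lt_of_le_of_ne (he.1 _ (hBt i)) hi)
    exact sum_neg' (fun j _ => h1 j) ⟨i, mem_univ i, h2⟩
  have hfin : {w : E | Vert a β w}.Finite := by
    have hinj : Set.InjOn (fun w : E => tight a β w) {w | Vert a β w} := by
      intro w hw w' hw' h
      have := hw.2 (w - w') (fun i hi => by
        have h1 := mem_tight.1 hi
        simp only at h
        rw [h] at hi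
        have h2 := mem_tight.1 hi
        rw [map_sub, h1, h2, sub_self])
      exact sub_eq_zero.1 this
    exact Set.Finite.of_finite_image (Set.toFinite _) hinj
  have hstart : Sh a β (dl a B l) c v 0 := by
    refine ⟨hv, le_rfl, one_pos, fun e he => ?_⟩
    rw [mix_apply, sub_zero, one_mul, zero_mul, add_zero]
    exact hneg e he
  obtain ⟨N, x, θ, -, h2, h3, h4, h5, h6⟩ := path_tie hg (S := hfin.toFinset)
    (fun w θ hw => by rw [Set.Finite.mem_toFinset]; exact hw.1) v 0 hstart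
  refine ⟨N, x, fun k => θ k / (1 - θ k), h2, by simp [h3], fun k hk => ?_, fun k hk => ?_, h6⟩
  · obtain ⟨g1, g2, g3, g4⟩ := h4 k hk
    have h7 : 0 < 1 - θ k := by linarith
    refine ⟨by positivity, g1, fun e he => ?_⟩
    have h8 := g4 e he
    rw [mix_apply] at h8
    have h9 : dl a B l e + θ k / (1 - θ k) * c e =
        ((1 - θ k) * dl a B l e + θ k * c e) / (1 - θ k) := by
      field_simp
    rw [h9]
    exact div_neg_of_neg_of_pos h8 h7
  · obtain ⟨θs, g1, g2, g3, g4⟩ := (h5 k hk).2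
    have h8 := (h4 k hk.le).2.2.1
    have h9 := (h4 (k + 1) hk).2.2.1
    have h10 : 0 < 1 - θs := by linarith
    have key : ∀ y, dl a B l y + θs / (1 - θs) * c y = mix (dl a B l) c θs y / (1 - θs) := by
      intro y
      rw [mix_apply]
      field_simp
    refine ⟨(h5 k hk).1, θs / (1 - θs), ?_, ?_, fun y hy => ?_, ?_⟩
    · simp only
      rw [div_lt_div_iff₀ (by linarith) h10]
      nlinarith
    · simp only
      rw [div_lt_div_iff₀ h10 (by linarith)]
      nlinarith
    · rw [key, key]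
      exact div_le_div_of_nonneg_right (g3 y hy) h10.le
    · rw [key, key, g4]

/-- **Tail bound.** -/
theorem Dat.main_tie (H : Dat a c B κ R nrm lvl) {ℓ : ℕ} (hℓ : 2 * n * κ * R ≤ 2 ^ ℓ) (T : ℕ)
    {v : E} (hv : Vert a β v) (hBt : ∀ i, B i ∈ tight a β v)
    (hBs : ∀ g, (∀ i, a (B i) g = 0) → g = 0) :
    volume {l | l ∈ cube n ∧ ¬ ∃ N ≤ T, TPath a β c B l v N} ≤
      ENNReal.ofReal (16 * (n ^ 3 * κ * (1 + 2 * n * κ * ℓ))) /
      (T + 1 : ℕ) := by
  obtain ⟨Z, hZ, hZ'⟩ := gen_ae β c hBs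
  have h1 := H.tail hℓ T ({l | l ∈ cube n ∧ ¬ ∃ N ≤ T, TPath a β c B l v N} \ Z) (by
    rintro l ⟨⟨hl, hn⟩, hlZ⟩
    refine ⟨hl, ?_⟩
    obtain ⟨N, x, t, g1, g2, g3, g4, g5⟩ := exists_TPath hv hBt hBs
      (fun i => by linarith [(mem_cube.1 hl i).1]) (hZ' l hlZ)
    refine ⟨N, x, t, ?_, g3, ?_, ?_⟩
    · by_contra hT
      exact hn ⟨N, by omega, x, t, g1, g2, g3, g4, g5⟩
    · -- values increase
      have hlt : ∀ k k', k < k' → k' ≤ N → c (x k) < c (x k') := by
        intro k k' hk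
        induction k' with
        | zero => omega
        | succ k' ih =>
          intro hN
          have h2 := (g4 k' (by omega)).1.lt
          rcases (Nat.lt_succ_iff_lt_or_eq.1 hk) with h3 | h3
          · exact (ih h3 (by omega)).trans h2
          · rw [h3]; exact h2
      intro k k' hk hk' he
      have := hlt k k' hk hk'
      rw [he] at this
      exact lt_irrefl _ this
    · intro k hk
      obtain ⟨_, _, e, s, he, hce, _⟩ := (g4 k hk).1
      exact ⟨e, he, hce⟩)
  refine le_trans ?_ h1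
  calc volume {l | l ∈ cube n ∧ ¬ ∃ N ≤ T, TPath a β c B l v N}
      ≤ volume (({l | l ∈ cube n ∧ ¬ ∃ N ≤ T, TPath a β c B l v N} \ Z) ∪ Z) := by
        apply measure_mono
        intro l hl
        by_cases h : l ∈ Z
        · exact Or.inr h
        · exact Or.inl ⟨hl, h⟩
    _ ≤ volume ({l | l ∈ cube n ∧ ¬ ∃ N ≤ T, TPath a β c B l v N} \ Z) + volume Z :=
        measure_union_le _ _
    _ = _ := by rw [hZ, add_zero]

end Pool.Agent.K4H87.BS
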