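import Mathlib

/-! Volume of sets with many disjoint translates. -/

set_option autoImplicit false

namespace Pool.Agent.K4H87.BS

open MeasureTheory

theorem vol_translates {n K : ℕ} {S : Set (Fin n → ℝ)} (hS : MeasurableSet S)
    {Q : Set (Fin n → ℝ)} (ρ : ℕ → Fin n → ℝ)
    (hd : ∀ k l, k < l → l < K → ∀ x ∈ S, ∀ y ∈ S, x + ρ k ≠ y + ρ l)
    (hs : ∀ k < K, ∀ x ∈ S, x + ρ k ∈ Q) : (K : ENNReal) * volume S ≤ volume Q := by
  classical
  let T : ℕ → Set (Fin n → ℝ) := fun k => (fun x => x + (-(ρ k))) ⁻¹' S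
  have hT : ∀ k, MeasurableSet (T k) := fun k => (measurable_add_const _) hS
  have hv : ∀ k, volume (T k) = volume S := fun k => measure_preimage_add_right _ _ _
  have hmem : ∀ k x, x ∈ T k ↔ x + (-(ρ k)) ∈ S := fun k x => Iff.rfl
  have hdis : Set.PairwiseDisjoint (↑(Finset.range K) : Set ℕ) T := by
    intro k hk l hl hkl
    rw [Function.onFun, Set.disjoint_left]
    intro x hx hx'
    rw [hmem] at hx hx'
    have hk' := Finset.mem_range.1 (Finset.mem_coe.1 hk)
    have hl' := Finset.mem_range.1 (Finset.mem_coe.1 hl)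
    rcases lt_or_gt_of_ne hkl with h | h
    · exact hd k l h hl' _ hx _ hx' (by simp)
    · exact hd l k h hk' _ hx' _ hx (by simp)
  have h1 : volume (⋃ k ∈ Finset.range K, T k) = K * volume S := by
    rw [measure_biUnion_finset hdis (fun k _ => hT k)]
    simp only [hv, Finset.sum_const, Finset.card_range, nsmul_eq_mul]
  rw [← h1]
  apply measure_mono
  intro x hx
  simp only [Set.mem_iUnion] at hx
  obtain ⟨k, hk, hx⟩ := hx
  rw [hmem] at hx
  have := hs k (Finset.mem_range.1 hk) _ hx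
  simpa using this

/-- the cube `[1,2]^n` -/
def cube (n : ℕ) : Set (Fin n → ℝ) := Set.Icc (fun _ => 1) (fun _ => 2)

theorem mem_cube {n : ℕ} {x : Fin n → ℝ} : x ∈ cube n ↔ ∀ i, 1 ≤ x i ∧ x i ≤ 2 := by
  rw [cube, Set.mem_Icc, Pi.le_def, Pi.le_def]
  exact ⟨fun h i => ⟨h.1 i, h.2 i⟩, fun h => ⟨fun i => (h i).1, fun i => (h i).2⟩⟩

theorem vol_cube (n : ℕ) : volume (cube n) = 1 := by
  rw [cube, Real.volume_Icc_pi]
  norm_num

/-- the slightly larger cube -/
def box (n : ℕ) : Set (Fin n → ℝ) :=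
  Set.Icc (fun _ : Fin n => 1 - 1 / (n : ℝ)) (fun _ => 2 + 1 / (n : ℝ))

theorem vol_box {n : ℕ} (hn : 0 < n) : volume (box n) ≤ ENNReal.ofReal 8 := by
  have hn' : (0 : ℝ) < n := by exact_mod_cast hn
  rw [box, Real.volume_Icc_pi]
  have h3 : (2 + 1 / (n : ℝ)) - (1 - 1 / (n : ℝ)) = 1 + 2 / n := by ring
  simp only [h3, Finset.prod_const, Finset.card_univ, Fintype.card_fin]
  rw [← ENNReal.ofReal_pow (by positivity)]
  apply ENNReal.ofReal_le_ofReal
  calc (1 + 2 / (n : ℝ)) ^ n ≤ (Real.exp (2 / n)) ^ n := by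
        gcongr
        rw [add_comm]
        exact Real.add_one_le_exp _
    _ = Real.exp 2 := by
        rw [← Real.exp_nat_mul]
        congr 1
        field_simp
    _ = Real.exp 1 * Real.exp 1 := by rw [← Real.exp_add]; norm_num
    _ ≤ 2.7182818286 * 2.7182818286 := by
        have := Real.exp_one_lt_d9
        gcongr
    _ ≤ 8 := by norm_num

theorem cube_add {n : ℕ} {x : Fin n → ℝ} (hx : x ∈ cube n) {κ r : ℝ} {ρ : Fin n → ℝ}
    (hρ : ∀ i, |ρ i| ≤ κ) (hr : 0 ≤ r) (h : r * κ ≤ 1 / n) : x + r • ρ ∈ box n := by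
  have hx' := mem_cube.1 hx
  have hb : ∀ i, |r * ρ i| ≤ 1 / n := by
    intro i
    rw [abs_mul, abs_of_nonneg hr]
    exact (mul_le_mul_of_nonneg_left (hρ i) hr).trans h
  rw [box, Set.mem_Icc, Pi.le_def, Pi.le_def]
  refine ⟨fun i => ?_, fun i => ?_⟩
  · have := (abs_le.1 (hb i)).1
    simp only [Pi.add_apply, Pi.smul_apply, smul_eq_mul]
    linarith [(hx' i).1]
  · have := (abs_le.1 (hb i)).2
    simp only [Pi.add_apply, Pi.smul_apply, smul_eq_mul]
    linarith [(hx' i).2]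

theorem vol_small {n : ℕ} (hn : 0 < n) {S C : Set (Fin n → ℝ)} (hS : MeasurableSet S)
    {κ δ : ℝ} (hκ : 0 < κ) (hδ : 0 < δ) (ρ : Fin n → ℝ)
    (hC : ∀ k : ℕ, (k : ℝ) * δ * κ ≤ 1 / n → ∀ x ∈ S, x + ((k : ℝ) * δ) • ρ ∈ C)
    (hd : ∀ k l : ℕ, k < l → ∀ x ∈ S, ∀ y ∈ S,
      x + ((k : ℝ) * δ) • ρ ≠ y + ((l : ℝ) * δ) • ρ) :
    volume S ≤ ENNReal.ofReal (2 * (n * κ * δ)) * volume C := by
  have hn' : (0 : ℝ) < n := by exact_mod_cast hn
  set x : ℝ := n * κ * δ with hx
  have hx0 : 0 < x := by positivity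
  by_cases h1 : 1 ≤ x
  · have h2 : S ⊆ C := by
      intro y hy
      have := hC 0 (by simp) y hy
      simpa using this
    calc volume S ≤ volume C := measure_mono h2
      _ = 1 * volume C := (one_mul _).symm
      _ ≤ ENNReal.ofReal (2 * x) * volume C := by
          gcongr
          rw [← ENNReal.ofReal_one]
          exact ENNReal.ofReal_le_ofReal (by linarith)
  · push Not at h1
    set K : ℕ := ⌊1 / x⌋₊ with hK
    have h2 : 1 < 1 / x := by rw [lt_div_iff₀ hx0]; linarith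
    have hK1 : 1 ≤ K := by rw [hK]; exact Nat.le_floor (by simpa using h2.le)
    have hK2 : (K : ℝ) ≤ 1 / x := Nat.floor_le (by positivity)
    have hK3 : 1 / x < K + 1 := Nat.lt_floor_add_one _
    have hKr : (1 : ℝ) ≤ K := by exact_mod_cast hK1
    have hK4 : 1 / (2 * x) ≤ K := by
      have : 1 / (2 * x) = (1 / x) / 2 := by field_simp
      rw [this]
      linarith
    have h5 : (K : ENNReal) * volume S ≤ volume C := by
      refine vol_translates hS (fun k => ((k : ℝ) * δ) • ρ) (fun k l h _ => hd k l h)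
        (fun k hk z hz => hC k ?_ z hz)
      have h3 : (k : ℝ) ≤ 1 / x := by
        have : (k : ℝ) ≤ K := by exact_mod_cast hk.le
        linarith
      calc (k : ℝ) * δ * κ ≤ 1 / x * δ * κ := by gcongr
        _ = 1 / n := by rw [hx]; field_simp
    have h6 : (1 : ENNReal) ≤ ENNReal.ofReal (2 * x) * K := by
      rw [← ENNReal.ofReal_natCast, ← ENNReal.ofReal_mul (by positivity), ← ENNReal.ofReal_one]
      apply ENNReal.ofReal_le_ofReal
      rw [div_le_iff₀ (by positivity)] at hK4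
      linarith
    calc volume S = 1 * volume S := (one_mul _).symm
      _ ≤ (ENNReal.ofReal (2 * x) * K) * volume S := by gcongr
      _ = ENNReal.ofReal (2 * x) * (K * volume S) := by rw [mul_assoc]
      _ ≤ _ := by gcongr

end Pool.Agent.K4H87.BS
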